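import Pool.Agent.H17.VG.TargetsB
import Pool.Agent.H17.VG.TargetsC

/-!
# MP_70ba79_ag, board `vyc_modules`: module ST (the steps)
-/

set_option autoImplicit false

namespace Pool.Agent.H90.VG

open MvPolynomial SC Pool.Agent.H27.LV Pool.Agent.H17.VG

section

variable {K : Type} [Field K] {n : ℕ}

/-- pairing with `x` -/
def pr (x : Fin (n + 1) → K) : (Fin (n + 1) → K) →ₗ[K] K :=
  ∑ i, x i • LinearMap.proj (R := K) (φ := fun _ : Fin (n + 1) => K) i

theorem pr_apply (x ξ : Fin (n + 1) → K) : pr x ξ = ∑ i, ξ i * x i := by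
  simp only [pr, LinearMap.coe_sum, Finset.sum_apply, LinearMap.smul_apply, LinearMap.proj_apply,
    smul_eq_mul]
  exact Finset.sum_congr rfl fun i _ => mul_comm _ _

theorem Vx_eq (x : Fin (n + 1) → K) : Vx x = LinearMap.ker (pr x) := by
  ext ξ
  rw [LinearMap.mem_ker, pr_apply]
  rfl

theorem finrank_Vx {x : Fin (n + 1) → K} (hx : x ≠ 0) : Module.finrank K (Vx x) = n := by
  rw [Vx_eq]
  have h := LinearMap.finrank_range_add_finrank_ker (pr x)
  have hs : LinearMap.range (pr x) = ⊤ := by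
    rw [LinearMap.range_eq_top]
    obtain ⟨j, hj⟩ := Function.ne_iff.1 hx
    intro c
    refine ⟨Pi.single j (c / x j), ?_⟩
    rw [pr_apply, Finset.sum_eq_single j]
    · rw [Pi.single_eq_same]
      exact div_mul_cancel₀ c hj
    · intro i _ hi
      rw [Pi.single_eq_of_ne hi, zero_mul]
    · simp
  rw [hs, finrank_top, Module.finrank_self, Module.finrank_fin_fun] at h
  omega

theorem indep_ne {x y : Fin (n + 1) → K} (h : Indep x y) : x ≠ 0 := by
  have := h.ne_zero 0
  simpa using this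

theorem finrank_quot {x y : Fin (n + 1) → K} (h : Indep x y) :
    Module.finrank K ((Fin (n + 1) → K) ⧸ Submodule.span K {x, y}) + 2 = n + 1 := by
  have h1 := Submodule.finrank_quotient_add_finrank (Submodule.span K {x, y})
  have h2 : Module.finrank K (Submodule.span K ({x, y} : Set (Fin (n + 1) → K))) = 2 := by
    have h3 := finrank_span_eq_card (R := K) (b := ![x, y]) h
    have h4 : Set.range ![x, y] = {x, y} := by
      ext z
      simp [eq_comm]
      tauto
    rw [h4] at h3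
    simpa using h3
  rw [h2, Module.finrank_fin_fun] at h1
  exact h1

theorem up_frm {k : Type} [Field k] [Algebra k K] {e : ℕ} (q : Mon (n + 1) e → k) :
    up K (frm q) = frm (fun β => algebraMap k K (q β)) := by
  unfold up frm
  rw [map_sum]
  refine Finset.sum_congr rfl fun f _ => ?_
  rw [map_mul, map_C]
  unfold mono
  rw [map_monomial, map_one]

end

theorem st (hB : T_B) (hC : T_C) (hKP : T_KP) (hBI : T_BI) (hTP : T_TP) : T_ST := by
  classical
  intro R k K _ _ _ _ _ _ _ n e F D x hn hne hS hI hF hT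
  have hx : x ≠ 0 := indep_ne hI
  obtain ⟨B, hBd⟩ := hBI R K n e F D x hS hI
  have hq := finrank_quot hI
  set N := (Fin (n + 1) → K) ⧸ Submodule.span K {x, fun i => D (x i)} with hN
  have hVn : Module.finrank K (Vx x) = n := finrank_Vx hx
  -- spanning
  have hspan : Submodule.span K {w | ∃ v q, w = B v q} = ⊤ := by
    have h1 := hBd Set.univ
    have h2 : {G | ∃ p ∈ (Set.univ : Set (Vx x × (Mon (n + 1) e → K))),
        G = lin p.1.1 * frm p.2} = {G | ∃ (ξ : Fin (n + 1) → K) (q : Mon (n + 1) e → K),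
        ∑ i, ξ i * x i = 0 ∧ G = lin ξ * frm q} := by
      ext G
      constructor
      · rintro ⟨⟨ξ, q⟩, _, rfl⟩
        exact ⟨ξ.1, q, ξ.2, rfl⟩
      · rintro ⟨ξ, q, h, rfl⟩
        exact ⟨⟨⟨ξ, h⟩, q⟩, trivial, rfl⟩
    have h3 : {w | ∃ p ∈ (Set.univ : Set (Vx x × (Mon (n + 1) e → K))), w = B p.1 p.2} =
        {w | ∃ v q, w = B v q} := by
      ext w
      constructor
      · rintro ⟨⟨v, q⟩, _, rfl⟩
        exact ⟨v, q, rfl⟩
      · rintro ⟨v, q, rfl⟩
        exact ⟨⟨v, q⟩, trivial, rfl⟩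
    rw [h2, h3, hTP R K n e F D x hS hF, finrank_top, Module.finrank_fin_fun] at h1
    apply Submodule.eq_top_of_finrank_eq
    omega
  -- hyperplanes
  have hhyp : ∀ φ : Vx x →ₗ[K] K, φ ≠ 0 →
      n ≤ Module.finrank K (Submodule.span K {w | ∃ v q, φ v = 0 ∧ w = B v q}) + 1 +
        (e - n) := by
    intro φ hφ
    obtain ⟨ψ, hψ⟩ := LinearMap.exists_extend φ
    set y : Fin (n + 1) → K := fun i => ψ (Pi.single i 1) with hy
    have hψy : ∀ ξ, ψ ξ = ∑ i, ξ i * y i := by
      intro ξ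
      conv_lhs => rw [pi_eq_sum_univ' ξ]
      rw [map_sum]
      refine Finset.sum_congr rfl fun i _ => ?_
      rw [map_smul, smul_eq_mul]
    have hφy : ∀ v : Vx x, φ v = ∑ i, v.1 i * y i := by
      intro v
      rw [← hψ, LinearMap.comp_apply, hψy]
      rfl
    have hxy : Indep x y := by
      unfold Indep
      rw [LinearIndependent.pair_iff' hx]
      intro a ha
      apply hφ
      ext v
      rw [hφy, LinearMap.zero_apply, ← ha]
      have h0 : ∑ i, v.1 i * x i = 0 := v.2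
      calc ∑ i, v.1 i * (a • x) i = a * ∑ i, v.1 i * x i := by
            rw [Finset.mul_sum]
            refine Finset.sum_congr rfl fun i _ => ?_
            rw [Pi.smul_apply, smul_eq_mul]; ring
        _ = 0 := by rw [h0, mul_zero]
    have h1 := hBd {p | φ p.1 = 0}
    have h2 : Submodule.span K {G | ∃ p ∈ {p : Vx x × (Mon (n + 1) e → K) | φ p.1 = 0},
        G = lin p.1.1 * frm p.2} = Il e x y := by
      unfold Il
      congr 1
      ext G
      constructor
      · rintro ⟨⟨ξ, q⟩, h, rfl⟩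
        refine ⟨ξ.1, frm q, ξ.2, ?_, frm_homog q, rfl⟩
        rw [← hφy]
        exact h
      · rintro ⟨ξ, Q, h, h', hQ, rfl⟩
        refine ⟨⟨⟨ξ, h⟩, fun f => coeff (fs f.1) Q⟩, ?_, ?_⟩
        · show φ ⟨ξ, h⟩ = 0
          rw [hφy]
          exact h'
        · rw [frm_coeff hQ]
    have h3 : {w | ∃ p ∈ {p : Vx x × (Mon (n + 1) e → K) | φ p.1 = 0}, w = B p.1 p.2} =
        {w | ∃ v q, φ v = 0 ∧ w = B v q} := by
      ext w
      constructor
      · rintro ⟨⟨v, q⟩, h, rfl⟩
        exact ⟨v, q, h, rfl⟩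
      · rintro ⟨v, q, h, rfl⟩
        exact ⟨⟨v, q⟩, h, rfl⟩
    rw [h2, h3] at h1
    have h4 : Module.finrank K (Ut R F x (Il e x y)) ≤ n + 1 := by
      have := Submodule.finrank_le (Ut R F x (Il e x y))
      rwa [Module.finrank_fin_fun] at this
    obtain ⟨m, hm⟩ := Nat.exists_eq_add_of_le h4
    by_cases hm2 : n + 1 ≤ 2 * m
    · have := hB R K n e F D x y hS hxy hI hF (hT y hxy) m hm.symm hm2
      omega
    · omega
  obtain ⟨Q, hQ⟩ := hC K (Vx x) (Mon (n + 1) e → K) N B n (e - n) hVn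
    (by have h5 : Module.finrank K N + 2 = n + 1 := hq
        omega) (by omega)
    hspan hhyp
  obtain ⟨Q', hQ'⟩ := hKP k K (Vx x) N (Fin (e - n - 1)) (Mon (n + 1) e) B Q _ le_rfl
  refine ⟨Q', ?_⟩
  have h1 := hBd {p | ∃ j, p.2 = fun β => algebraMap k K (Q' j β)}
  have h2 : Submodule.span K {G | ∃ p ∈ {p : Vx x × (Mon (n + 1) e → K) |
      ∃ j, p.2 = fun β => algebraMap k K (Q' j β)}, G = lin p.1.1 * frm p.2} =
      PQ x fun j => up K (frm (Q' j)) := by
    unfold PQ
    congr 1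
    ext G
    constructor
    · rintro ⟨⟨ξ, q⟩, ⟨j, hj⟩, rfl⟩
      refine ⟨ξ.1, j, ξ.2, ?_⟩
      beta_reduce
      rw [up_frm]
      simp only at hj
      rw [hj]
    · rintro ⟨ξ, j, h, rfl⟩
      refine ⟨⟨⟨ξ, h⟩, fun β => algebraMap k K (Q' j β)⟩, ⟨j, rfl⟩, ?_⟩
      beta_reduce
      rw [up_frm]
  have h3 : Submodule.span K {w | ∃ p ∈ {p : Vx x × (Mon (n + 1) e → K) |
      ∃ j, p.2 = fun β => algebraMap k K (Q' j β)}, w = B p.1 p.2} =
      im B (fun i j => algebraMap k K (Q' i j)) := by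
    unfold im
    congr 1
    ext w
    constructor
    · rintro ⟨⟨v, q⟩, ⟨j, hj⟩, rfl⟩
      simp only at hj
      exact ⟨v, j, by rw [hj]⟩
    · rintro ⟨v, j, rfl⟩
      exact ⟨⟨v, fun β => algebraMap k K (Q' j β)⟩, ⟨j, rfl⟩, rfl⟩
  rw [h2, h3] at h1
  exact le_trans hQ (le_trans (Nat.add_le_add_right hQ' 2) (le_of_eq h1.symm))

end Pool.Agent.H90.VG
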