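import Mathlib

/-!
# MP_70ba79_ag, board `vyc_modules`: module NB, determinants
-/

set_option autoImplicit false

namespace Pool.Agent.H90.VG

section Det

variable {K J : Type} [Field K] [Fintype J] [DecidableEq J]

omit [Field K] [Fintype J] in
theorem updateCol_comm' (A : Matrix J J K) {c0 c1 : J} (h : c0 ≠ c1) (u v : J → K) :
    (A.updateCol c0 u).updateCol c1 v = (A.updateCol c1 v).updateCol c0 u := by
  ext i j
  simp only [Matrix.updateCol_apply]
  by_cases h0 : j = c0
  · subst h0
    simp [h]
  · simp [h0]

/-- expansion along a row with two nonzero entries -/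
theorem two_cols (A : Matrix J J K) {c0 c1 : J} (h : c0 ≠ c1) (r0 : J)
    (hA : ∀ c, c ≠ c0 → c ≠ c1 → A r0 c = 0) (v1 v2 : J → K) (h1 : v1 r0 = 0) (h2 : v2 r0 = 0)
    (r1 r2 : K) :
    ((A.updateCol c0 (v1 + r1 • Pi.single r0 1)).updateCol c1
        (v2 + r2 • Pi.single r0 1)).det =
      r1 * ((A.updateCol c0 (Pi.single r0 1)).updateCol c1 v2).det -
        r2 * ((A.updateCol c0 (Pi.single r0 1)).updateCol c1 v1).det := by
  obtain ⟨Φ, hΦ⟩ : ∃ Φ : (J → K) → (J → K) → K, ∀ u v, Φ u v =
    ((A.updateCol c0 u).updateCol c1 v).det := ⟨_, fun _ _ => rfl⟩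
  have hr : ∀ u v v', Φ u (v + v') = Φ u v + Φ u v' := by
    intro u v v'
    rw [hΦ, hΦ, hΦ, Matrix.det_updateCol_add]
  have hrs : ∀ u (c : K) v, Φ u (c • v) = c * Φ u v := by
    intro u c v
    rw [hΦ, hΦ, Matrix.det_updateCol_smul]
  have hl : ∀ u u' v, Φ (u + u') v = Φ u v + Φ u' v := by
    intro u u' v
    rw [hΦ, hΦ, hΦ, updateCol_comm' A h, updateCol_comm' A h, updateCol_comm' A h,
      Matrix.det_updateCol_add]
  have hls : ∀ (c : K) u v, Φ (c • u) v = c * Φ u v := by
    intro c u v
    rw [hΦ, hΦ, updateCol_comm' A h, updateCol_comm' A h, Matrix.det_updateCol_smul]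
  have hd : ∀ u, Φ u u = 0 := by
    intro u
    rw [hΦ]
    apply Matrix.det_zero_of_column_eq h
    intro k
    rw [Matrix.updateCol_self, Matrix.updateCol_ne h, Matrix.updateCol_self]
  have hanti : ∀ u v, Φ u v = - Φ v u := by
    intro u v
    have := hd (u + v)
    rw [hl, hr, hr, hd, hd] at this
    linear_combination this
  have h0 : Φ v1 v2 = 0 := by
    rw [hΦ]
    apply Matrix.det_eq_zero_of_row_eq_zero r0
    intro j
    rw [Matrix.updateCol_apply, Matrix.updateCol_apply]
    split_ifs with h3 h4
    · exact h2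
    · exact h1
    · exact hA j h4 h3
  rw [← hΦ, ← hΦ, ← hΦ, hl, hr, hr, hls, hls, hrs, hrs, h0, hd, hanti v1]
  ring

end Det

section LI

variable {K V ι : Type} [Field K] [AddCommGroup V] [Module K V] [Fintype ι] [DecidableEq ι]

/-- extension of two independent vectors by members of a family -/
theorem exists_extend (w : ι → V) (u v : V) (h : LinearIndependent K ![u, v]) :
    ∃ T0 : Finset ι, LinearIndependent K (Sum.elim (fun c : T0 => w c) ![u, v]) ∧
      Submodule.span K (Set.range (Sum.elim (fun c : T0 => w c) ![u, v])) =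
        Submodule.span K (Set.range w ∪ {u, v}) := by
  classical
  set M' : Submodule K V := Submodule.span K (Set.range ![u, v]) with hM'
  obtain ⟨κ, a, ha, hs, hl⟩ := exists_linearIndependent' K
    (fun i => (Submodule.Quotient.mk (p := M') (w i)))
  have : Finite κ := Finite.of_injective a ha
  have : Fintype κ := Fintype.ofFinite κ
  let T0 : Finset ι := Finset.univ.image a
  let eT : κ ≃ T0 := Equiv.ofBijective (fun c => ⟨a c, Finset.mem_image_of_mem a (Finset.mem_univ c)⟩)
    ⟨fun c c' hc => ha (congrArg Subtype.val hc), fun ⟨i, hi⟩ => by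
      obtain ⟨c, _, hc⟩ := Finset.mem_image.1 hi
      exact ⟨c, Subtype.ext hc⟩⟩
  have hl' : LinearIndependent K (Submodule.Quotient.mk (p := M') ∘ fun c : T0 => w c) := by
    rw [← linearIndependent_equiv eT]
    exact hl
  have hf : LinearIndependent K (fun t : Fin 2 => (⟨![u, v] t, Submodule.subset_span ⟨t, rfl⟩⟩ : M')) := by
    apply LinearIndependent.of_comp M'.subtype
    exact h
  have hmain := LinearIndependent.sumElim_of_quotient hf (fun c : T0 => w c) hl'
  refine ⟨T0, ?_, ?_⟩
  · have h2 := (linearIndependent_equiv (Equiv.sumComm T0 (Fin 2))).2 hmain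
    have e : Sum.elim (fun c : T0 => w c) ![u, v] = (Sum.elim
        (fun x => (((⟨![u, v] x, Submodule.subset_span ⟨x, rfl⟩⟩ : M')) : V))
        fun c : T0 => w c) ∘ (Equiv.sumComm T0 (Fin 2)) := by
      funext c
      rcases c with c | c
      · rfl
      · rfl
    rw [e]
    exact h2
  · apply le_antisymm
    · rw [Submodule.span_le]
      rintro _ ⟨c | t, rfl⟩
      · exact Submodule.subset_span (Or.inl ⟨c, rfl⟩)
      · apply Submodule.subset_span
        right
        fin_cases t
        · left; rfl
        · right; rfl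
    · rw [Submodule.span_le]
      rintro z (⟨i, rfl⟩ | hz)
      · have h1 : Submodule.Quotient.mk (p := M') (w i) ∈
            Submodule.span K (Set.range ((fun i => (Submodule.Quotient.mk (p := M') (w i))) ∘ a)) := by
          rw [hs]
          exact Submodule.subset_span ⟨i, rfl⟩
        have h2 : (Set.range ((fun i => (Submodule.Quotient.mk (p := M') (w i))) ∘ a)) =
            M'.mkQ '' (Set.range (w ∘ a)) := by
          rw [← Set.range_comp]
          rfl
        rw [h2, Submodule.span_image, Submodule.mem_map] at h1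
        obtain ⟨z, hz, hzi⟩ := h1
        have h3 : w i - z ∈ M' := by
          rw [← Submodule.Quotient.mk_eq_zero, Submodule.Quotient.mk_sub]
          have : Submodule.Quotient.mk (p := M') z = M'.mkQ z := rfl
          rw [this, hzi, sub_self]
        have h4 : w i = z + (w i - z) := by abel
        rw [h4, SetLike.mem_coe]
        apply Submodule.add_mem
        · refine (Submodule.span_mono ?_) hz
          rintro _ ⟨c, rfl⟩
          exact ⟨Sum.inl (eT c), rfl⟩
        · refine (Submodule.span_mono ?_) h3
          rintro _ ⟨t, rfl⟩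
          exact ⟨Sum.inr t, rfl⟩
      · apply Submodule.subset_span
        rcases hz with rfl | hz
        · exact ⟨Sum.inr 0, rfl⟩
        · rw [Set.mem_singleton_iff] at hz
          exact ⟨Sum.inr 1, hz.symm⟩

end LI

end Pool.Agent.H90.VG
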