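import Pool.Agent.H17.VG.TargetsB
import Pool.Agent.H17.VG.TargetsD
import Pool.Agent.H90.VG.NBa

/-!
# MP_70ba79_ag, board `vyc_modules`: module NB (choice of columns, second case)
-/

set_option autoImplicit false

namespace Pool.Agent.H90.VG

open MvPolynomial SC Pool.Agent.H27.LV Pool.Agent.H17.VG

section Lin

variable {R K : Type} [Field R] [Field K] [Algebra R K] {n : ℕ}

/-- `opV` as a linear map in the operator -/
noncomputable def opVl (hOP : T_OP) (z : Fin (n + 1) → K) : Op R K n →ₗ[K] (Fin (n + 1) → K) where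
  toFun τ := opV τ z
  map_add' τ τ' := by
    have := (hOP R K n 0 τ τ' 0 0 1 1 z).2.2.2.1
    simpa using this
  map_smul' a τ := by
    have := (hOP R K n 0 τ τ 0 0 a 0 z).2.2.2.1
    simpa using this

/-- `opF` as a linear map in the operator -/
noncomputable def opFl (hOP : T_OP) (G : MvPolynomial (Fin (n + 1)) K) :
    Op R K n →ₗ[K] MvPolynomial (Fin (n + 1)) K where
  toFun τ := opF τ G
  map_add' τ τ' := by
    have := (hOP R K n 0 τ τ' G 0 1 1 0).2.2.1
    simpa using this
  map_smul' a τ := by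
    have := (hOP R K n 0 τ τ G 0 a 0 0).2.2.1
    simpa [MvPolynomial.smul_eq_C_mul] using this

/-- vectors which, with `D x` and `x`, span the space of velocities -/
def wv {s : ℕ} (x : Fin (n + 1) → K) (p : Fin (n + 1)) (τ : Fin (n + 1) → Fin s → Op R K n)
    (c : Fin (n + 1) × Fin s) : Fin (n + 1) → K :=
  opV (τ c.1 c.2) x - x c.1 • opV (τ p c.2) x

theorem Ut_PQ (hOP : T_OP) (hWD : T_WD) {s d : ℕ} {F : MvPolynomial (Fin (n + 1)) K}
    {D' : Derivation R K K} (hS : Pool.Agent.H17.VG.Sys d F D') (x : Fin (n + 1) → K)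
    (p : Fin (n + 1)) (hp : x p = 1) (Q : Fin s → MvPolynomial (Fin (n + 1)) K)
    (τ : Fin (n + 1) → Fin s → Op R K n) (hτ : ∀ i j, opF (τ i j) F = X i * Q j) :
    Ut R F x (PQ x Q) =
      Submodule.span K (Set.range (wv x p τ) ∪ {(fun i => D' (x i)), x}) := by
  set S := Submodule.span K (Set.range (wv x p τ) ∪ {(fun i => D' (x i)), x}) with hSdef
  have hw : ∀ c, wv x p τ c ∈ S := fun c => Submodule.subset_span (Or.inl ⟨c, rfl⟩)
  have hDx : (fun i => D' (x i)) ∈ S := Submodule.subset_span (Or.inr (Or.inl rfl))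
  have hxS : x ∈ S := Submodule.subset_span (Or.inr (Or.inr rfl))
  have key : ∀ G ∈ PQ x Q, ∃ τ' : Op R K n, opF τ' F = G ∧ opV τ' x ∈ S := by
    intro G hG
    unfold PQ at hG
    induction hG using Submodule.span_induction with
    | mem G hG =>
      obtain ⟨ξ, j, hξ, rfl⟩ := hG
      refine ⟨∑ i, ξ i • τ i j, ?_, ?_⟩
      · have h1 := map_sum (opFl (R := R) hOP F) (fun i => ξ i • τ i j) Finset.univ
        have h2 : ∀ i, opFl (R := R) hOP F (ξ i • τ i j) = ξ i • (X i * Q j) := by
          intro i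
          rw [map_smul]
          congr 1
          exact hτ i j
        simp only [h2] at h1
        refine h1.trans ?_
        unfold lin
        rw [Finset.sum_mul]
        refine Finset.sum_congr rfl fun i _ => ?_
        rw [smul_eq_C_mul, mul_assoc]
      · have h1 := map_sum (opVl (R := R) hOP x) (fun i => ξ i • τ i j) Finset.univ
        have h2 : ∀ i, opVl (R := R) hOP x (ξ i • τ i j) = ξ i • opV (τ i j) x := by
          intro i
          rw [map_smul]
          rfl
        simp only [h2] at h1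
        have h3 : ∑ i, ξ i • opV (τ i j) x = ∑ i, ξ i • wv x p τ (i, j) := by
          have : ∀ i, ξ i • wv x p τ (i, j) =
              ξ i • opV (τ i j) x - (ξ i * x i) • opV (τ p j) x := by
            intro i
            unfold wv
            rw [smul_sub, smul_smul]
          simp only [this]
          rw [Finset.sum_sub_distrib, ← Finset.sum_smul, hξ, zero_smul, sub_zero]
        rw [show opV (∑ i, ξ i • τ i j) x = _ from h1, h3]
        exact Submodule.sum_mem _ fun i _ => Submodule.smul_mem _ _ (hw _)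
    | zero =>
      refine ⟨0, ?_, ?_⟩
      · exact map_zero (opFl (R := R) hOP F)
      · rw [show opV (0 : Op R K n) x = 0 from map_zero (opVl (R := R) hOP x)]
        exact Submodule.zero_mem _
    | add G G' _ _ h h' =>
      obtain ⟨t, h1, h2⟩ := h
      obtain ⟨t', h1', h2'⟩ := h'
      refine ⟨t + t', ?_, ?_⟩
      · rw [← h1, ← h1']
        exact map_add (opFl (R := R) hOP F) t t'
      · rw [show opV (t + t') x = opV t x + opV t' x from map_add (opVl (R := R) hOP x) t t']
        exact Submodule.add_mem _ h2 h2'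
    | smul a G _ h =>
      obtain ⟨t, h1, h2⟩ := h
      refine ⟨a • t, ?_, ?_⟩
      · rw [← h1]
        exact map_smul (opFl (R := R) hOP F) a t
      · rw [show opV (a • t) x = a • opV t x from map_smul (opVl (R := R) hOP x) a t]
        exact Submodule.smul_mem _ _ h2
  apply le_antisymm
  · unfold Ut
    rw [Submodule.span_le]
    rintro w (⟨t, ht, rfl⟩ | hw')
    · obtain ⟨t', h1, h2⟩ := key _ ht
      obtain ⟨c, hc⟩ := hWD R K n d F D' hS t t' h1.symm
      rw [hc x]
      exact Submodule.add_mem _ h2 (Submodule.smul_mem _ _ hDx)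
    · rw [Set.mem_singleton_iff] at hw'
      rw [hw']
      exact hxS
  · rw [hSdef, Submodule.span_le]
    rintro w (⟨c, rfl⟩ | hw')
    · apply Submodule.subset_span
      left
      refine ⟨τ c.1 c.2 - x c.1 • τ p c.2, ?_, ?_⟩
      · have h1 : opF (τ c.1 c.2 - x c.1 • τ p c.2) F =
            lin (Pi.single c.1 1 - x c.1 • Pi.single p 1) * Q c.2 := by
          have h2 : opF (τ c.1 c.2 - x c.1 • τ p c.2) F =
              opF (τ c.1 c.2) F - x c.1 • opF (τ p c.2) F := by
            have h3 := map_sub (opFl (R := R) hOP F) (τ c.1 c.2) (x c.1 • τ p c.2)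
            rw [map_smul] at h3
            exact h3
          rw [h2, hτ, hτ, smul_eq_C_mul, ← mul_assoc, ← sub_mul]
          congr 1
          unfold lin
          have h4 : ∀ j, (C ((Pi.single c.1 1 - x c.1 • Pi.single p 1 : Fin (n + 1) → K) j) :
              MvPolynomial (Fin (n + 1)) K) * X j = (if j = c.1 then X j else 0) -
                (if j = p then C (x c.1) * X j else 0) := by
            intro j
            rw [Pi.sub_apply, Pi.smul_apply, map_sub, sub_mul, Pi.single_apply, Pi.single_apply]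
            congr 1
            · split_ifs <;> simp
            · split_ifs <;> simp
          simp only [h4]
          rw [Finset.sum_sub_distrib, Finset.sum_ite_eq', Finset.sum_ite_eq']
          simp
        rw [h1]
        apply Submodule.subset_span
        refine ⟨_, c.2, ?_, rfl⟩
        have h4 : ∀ i, (Pi.single c.1 1 - x c.1 • Pi.single p 1 : Fin (n + 1) → K) i * x i =
            (if i = c.1 then x i else 0) - (if i = p then x c.1 * x i else 0) := by
          intro i
          rw [Pi.sub_apply, Pi.smul_apply, sub_mul, Pi.single_apply, Pi.single_apply]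
          congr 1
          · split_ifs <;> simp
          · split_ifs <;> simp
        simp only [h4]
        rw [Finset.sum_sub_distrib, Finset.sum_ite_eq', Finset.sum_ite_eq']
        simp [hp]
      · have h3 := map_sub (opVl (R := R) hOP x) (τ c.1 c.2) (x c.1 • τ p c.2)
        rw [map_smul] at h3
        exact h3.symm
    · rcases hw' with rfl | hw'
      · apply Submodule.subset_span
        left
        refine ⟨(D', 0), ?_, ?_⟩
        · have : opF (D', (0 : Matrix (Fin (n + 1)) (Fin (n + 1)) K)) F = 0 := by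
            unfold opF
            simp [hS.base]
          rw [this]
          exact Submodule.zero_mem _
        · funext i
          simp [opV]
      · rw [Set.mem_singleton_iff] at hw'
        apply Submodule.subset_span
        right
        exact hw'

end Lin

section Mat

variable {R k K : Type} [Field R] [Field k] [Field K] [Algebra k K] [Algebra R K] {n s : ℕ}
  {T : Type} [Fintype T] [DecidableEq T]

/-- a vector as a column -/
def vw (e0 : (T ⊕ Fin 2) ⊕ Fin 2 ≃ Fin (n + 1) ⊕ Fin (s + 1)) (w : Fin (n + 1) → K) :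
    (T ⊕ Fin 2) ⊕ Fin 2 → K := fun r => Sum.elim w (fun _ => 0) (e0 r)

/-- the matrix with the columns `p`, `p` of the last form -/
noncomputable def AA (D : Derivation k K K) (x : Fin (n + 1) → K) (t0 : T → Op R K n)
    (i0 : T → Fin (n + 1)) (j0 : T → Fin s) (tl : Fin (n + 1) → Op R K n) (p : Fin (n + 1))
    (e0 : (T ⊕ Fin 2) ⊕ Fin 2 ≃ Fin (n + 1) ⊕ Fin (s + 1)) :
    Matrix ((T ⊕ Fin 2) ⊕ Fin 2) ((T ⊕ Fin 2) ⊕ Fin 2) K :=
  (bigM D x (Sum.elim t0 (fun _ : Fin 2 => tl p)) (Sum.elim i0 (fun _ : Fin 2 => p))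
    (Sum.elim (fun c => (j0 c).castSucc) (fun _ => Fin.last s))).submatrix e0 id

variable (D : Derivation k K K) (x : Fin (n + 1) → K) (t0 : T → Op R K n)
    (i0 : T → Fin (n + 1)) (j0 : T → Fin s) (tl : Fin (n + 1) → Op R K n) (p : Fin (n + 1))
    (e0 : (T ⊕ Fin 2) ⊕ Fin 2 ≃ Fin (n + 1) ⊕ Fin (s + 1))

theorem col_eq (a : Fin (n + 1)) (w : Fin (n + 1) → K) (r : (T ⊕ Fin 2) ⊕ Fin 2) :
    (vw e0 w + x a • (Pi.single (e0.symm (Sum.inr (Fin.last s))) (1 : K) :
      (T ⊕ Fin 2) ⊕ Fin 2 → K)) r =
      Sum.elim w (fun b' => if Fin.last s = b' then x a else 0) (e0 r) := by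
  rw [Pi.add_apply, Pi.smul_apply, Pi.single_apply, smul_eq_mul, mul_ite, mul_one, mul_zero]
  simp only [Equiv.eq_symm_apply, vw]
  generalize e0 r = r'
  rcases r' with i | b'
  · simp
  · simp [eq_comm]

theorem M_eq (a b : Fin (n + 1)) :
    (bigM D x (Sum.elim t0 (fun t : Fin 2 => tl (if t = 0 then a else b)))
      (Sum.elim i0 (fun t : Fin 2 => if t = 0 then a else b))
      (Sum.elim (fun c => (j0 c).castSucc) (fun _ => Fin.last s))).submatrix e0 id =
    ((AA D x t0 i0 j0 tl p e0).updateCol (Sum.inl (Sum.inr 0)) (vw e0 (opV (tl a) x) +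
      x a • Pi.single (e0.symm (Sum.inr (Fin.last s))) 1)).updateCol (Sum.inl (Sum.inr 1))
      (vw e0 (opV (tl b) x) + x b • Pi.single (e0.symm (Sum.inr (Fin.last s))) 1) := by
  ext r c
  rw [Matrix.updateCol_apply, Matrix.updateCol_apply, col_eq, col_eq]
  unfold AA
  simp only [Matrix.submatrix_apply, id]
  generalize e0 r = r'
  rcases c with (c | t) | t
  · rw [if_neg (by simp), if_neg (by simp)]
    rcases r' with i | b' <;> rfl
  · rcases (show t = 0 ∨ t = 1 by omega) with rfl | rfl
    · rw [if_neg (by simp), if_pos rfl]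
      rcases r' with i | b' <;> rfl
    · rw [if_pos rfl]
      rcases r' with i | b' <;> rfl
  · rw [if_neg (by simp), if_neg (by simp)]
    rcases r' with i | b' <;> rfl

theorem AA_row (c : (T ⊕ Fin 2) ⊕ Fin 2) (h0 : c ≠ Sum.inl (Sum.inr 0))
    (h1 : c ≠ Sum.inl (Sum.inr 1)) :
    AA D x t0 i0 j0 tl p e0 (e0.symm (Sum.inr (Fin.last s))) c = 0 := by
  unfold AA
  rw [Matrix.submatrix_apply, Equiv.apply_symm_apply, id]
  rcases c with (c | t) | t
  · show (if (j0 c).castSucc = Fin.last s then x (i0 c) else 0) = 0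
    rw [if_neg (Fin.castSucc_lt_last _).ne]
  · exfalso
    rcases (show t = 0 ∨ t = 1 by omega) with rfl | rfl
    · exact h0 rfl
    · exact h1 rfl
  · rfl

theorem rows (w : Fin (n + 1) → K) (v : (T ⊕ Fin 2) ⊕ Fin 2 → K)
    (hv : (((AA D x t0 i0 j0 tl p e0).updateCol (Sum.inl (Sum.inr 0))
      (Pi.single (e0.symm (Sum.inr (Fin.last s))) 1)).updateCol (Sum.inl (Sum.inr 1))
      (vw e0 w)).mulVec v = 0) :
    v (Sum.inl (Sum.inr 0)) = 0 ∧
    (∀ j : Fin s, ∑ t : T, (if j0 t = j then x (i0 t) * v (Sum.inl (Sum.inl t)) else 0) = 0) ∧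
    ∀ a, ∑ t : T, opV (t0 t) x a * v (Sum.inl (Sum.inl t)) + w a * v (Sum.inl (Sum.inr 1)) +
      D (x a) * v (Sum.inr 0) + x a * v (Sum.inr 1) = 0 := by
  have hrow : ∀ r : Fin (n + 1) ⊕ Fin (s + 1), (∑ t : T,
      Sum.elim (fun a => opV (t0 t) x a) (fun b => if (j0 t).castSucc = b then x (i0 t) else 0) r *
          v (Sum.inl (Sum.inl t))) + ((if r = Sum.inr (Fin.last s) then 1 else 0) *
            v (Sum.inl (Sum.inr 0)) +
          Sum.elim w (fun _ => 0) r * v (Sum.inl (Sum.inr 1))) +
        (Sum.elim (fun a => D (x a)) (fun _ => 0) r * v (Sum.inr 0) +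
          Sum.elim (fun a => x a) (fun _ => 0) r * v (Sum.inr 1)) = 0 := by
    intro r
    have h1 := congrFun hv (e0.symm r)
    rw [Matrix.mulVec, dotProduct, Fintype.sum_sum_type, Fintype.sum_sum_type,
      Fin.sum_univ_two, Fin.sum_univ_two] at h1
    rw [Pi.zero_apply] at h1
    refine Eq.trans ?_ h1
    congr 1
    · congr 1
      · refine Finset.sum_congr rfl fun t _ => ?_
        rw [Matrix.updateCol_apply, Matrix.updateCol_apply, if_neg (by simp),
          if_neg (by simp)]
        unfold AA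
        rw [Matrix.submatrix_apply, Equiv.apply_symm_apply]
        rcases r with i | b' <;> rfl
      · congr 1
        · symm
          rw [Matrix.updateCol_apply, Matrix.updateCol_apply, if_neg (by simp), if_pos rfl,
            Pi.single_apply]
          simp only [Equiv.apply_eq_iff_eq]
        · rw [Matrix.updateCol_apply, if_pos rfl]
          unfold vw
          rw [Equiv.apply_symm_apply]
    · congr 1
      · rw [Matrix.updateCol_apply, Matrix.updateCol_apply, if_neg (by simp),
          if_neg (by simp)]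
        unfold AA
        rw [Matrix.submatrix_apply, Equiv.apply_symm_apply]
        rcases r with i | b' <;> rfl
      · rw [Matrix.updateCol_apply, Matrix.updateCol_apply, if_neg (by simp),
          if_neg (by simp)]
        unfold AA
        rw [Matrix.submatrix_apply, Equiv.apply_symm_apply]
        rcases r with i | b' <;> rfl
  refine ⟨?_, ?_, ?_⟩
  · have h1 := hrow (Sum.inr (Fin.last s))
    have h2 : ∀ t : T, (if (j0 t).castSucc = Fin.last s then x (i0 t) else 0) = 0 := fun t =>
      if_neg (Fin.castSucc_lt_last _).ne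
    simp only [Sum.elim_inr, h2, zero_mul, Finset.sum_const_zero, if_true, add_zero,
      zero_add, one_mul] at h1
    exact h1
  · intro j
    have h1 := hrow (Sum.inr j.castSucc)
    have h3 : (Sum.inr j.castSucc : Fin (n + 1) ⊕ Fin (s + 1)) ≠ Sum.inr (Fin.last s) := by
      intro h
      exact (Fin.castSucc_lt_last j).ne (Sum.inr_injective h)
    rw [if_neg h3] at h1
    simp only [Sum.elim_inr, zero_mul, add_zero, Fin.castSucc_inj, ite_mul] at h1
    exact h1
  · intro a
    have h1 := hrow (Sum.inl a)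
    rw [if_neg (by simp)] at h1
    simp only [Sum.elim_inl] at h1
    linear_combination h1

end Mat

theorem nb (hOP : T_OP) (hWD : T_WD) : T_NB := by
  classical
  intro R k K _ _ _ _ _ _ n e s F D D' x p hp hS hDD hI Q τ hτ hfin hξ
  have hDx : (fun i => D' (x i)) = (fun i => D (x i)) := funext fun i => hDD _
  -- the space of velocities
  obtain ⟨Q0, hQ0⟩ : ∃ Q0 : Fin s → MvPolynomial (Fin (n + 1)) K, Q0 = fun j => Q j.castSucc :=
    ⟨_, rfl⟩
  obtain ⟨τ0, hτ0⟩ : ∃ τ0 : Fin (n + 1) → Fin s → Op R K n, τ0 = fun i j => τ i j.castSucc :=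
    ⟨_, rfl⟩
  rw [← hQ0] at hfin hξ
  have hUt := Ut_PQ hOP hWD hS x p hp Q0 τ0 (fun i j => by rw [hτ0, hQ0]; exact hτ i j.castSucc)
  rw [hDx] at hUt
  have hI' : LinearIndependent K ![(fun i => D (x i)), x] := by
    have h1 : LinearIndependent K ![x, fun i => D (x i)] := hI
    rw [LinearIndependent.pair_iff] at h1 ⊢
    intro a b hab
    have := h1 b a ((add_comm _ _).trans hab)
    exact ⟨this.2, this.1⟩
  obtain ⟨T0, hLI, hspan⟩ := exists_extend (wv x p τ0) (fun i => D (x i)) x hI'
  rw [← hUt] at hspan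
  have hcard : T0.card + 2 = n := by
    have h1 := finrank_span_eq_card hLI
    rw [hspan, hfin] at h1
    exact (h1.trans (by simp)).symm
  have hne : ∀ c ∈ T0, c.1 ≠ p := by
    intro c hc hcp
    have h1 := hLI.ne_zero (Sum.inl (⟨c, hc⟩ : T0))
    apply h1
    simp only [Sum.elim_inl]
    unfold wv
    rw [hcp, hp, one_smul, sub_self]
  obtain ⟨P0, hP0⟩ : ∃ P0 : Finset (Fin (n + 1) × Fin s),
    P0 = Finset.univ.image (fun j : Fin s => (p, j)) := ⟨_, rfl⟩
  obtain ⟨T, hT⟩ : ∃ T : Finset (Fin (n + 1) × Fin s), T = T0 ∪ P0 := ⟨_, rfl⟩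
  have hdisj : Disjoint T0 P0 := by
    rw [Finset.disjoint_left]
    intro c hc hc'
    rw [hP0] at hc'
    obtain ⟨j, _, hj⟩ := Finset.mem_image.1 hc'
    exact hne c hc (by rw [← hj])
  have hP0c : P0.card = s := by
    rw [hP0, Finset.card_image_of_injective _ (fun j j' h => (Prod.mk.inj h).2)]
    simp
  have hTcard : Fintype.card T = T0.card + s := by
    rw [Fintype.card_coe, hT, Finset.card_union_of_disjoint hdisj, hP0c]
  -- sums over `T`
  have hsumT : ∀ (f : Fin (n + 1) × Fin s → K),
      ∑ c : T, f c = ∑ c : T0, f c + ∑ j : Fin s, f (p, j) := by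
    intro f
    rw [Finset.sum_coe_sort T f, Finset.sum_coe_sort T0 f, hT, Finset.sum_union hdisj, hP0,
      Finset.sum_image (fun j _ j' _ h => (Prod.mk.inj h).2)]
  have hcardJ : Fintype.card ((T ⊕ Fin 2) ⊕ Fin 2) =
      Fintype.card (Fin (n + 1) ⊕ Fin (s + 1)) := by
    rw [Fintype.card_sum, Fintype.card_sum, Fintype.card_sum, hTcard]
    simp only [Fintype.card_fin]
    omega
  obtain ⟨e0⟩ : Nonempty ((T ⊕ Fin 2) ⊕ Fin 2 ≃ Fin (n + 1) ⊕ Fin (s + 1)) :=
    ⟨Fintype.equivOfCardEq hcardJ⟩
  obtain ⟨A, hA⟩ : ∃ A, A = AA D x (fun c : T => τ c.1.1 c.1.2.castSucc) (fun c : T => c.1.1)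
    (fun c : T => c.1.2) (fun a => τ a (Fin.last s)) p e0 := ⟨_, rfl⟩
  obtain ⟨r0, hr0⟩ : ∃ r0, r0 = e0.symm (Sum.inr (Fin.last s)) := ⟨_, rfl⟩
  have h01 : (Sum.inl (Sum.inr 0) : (T ⊕ Fin 2) ⊕ Fin 2) ≠ Sum.inl (Sum.inr 1) := by simp
  have hvw0 : ∀ w : Fin (n + 1) → K, vw e0 w r0 = 0 := by
    intro w
    rw [hr0, vw, Equiv.apply_symm_apply, Sum.elim_inr]
  -- the linear functional
  obtain ⟨Nf, hNf⟩ : ∃ Nf : (Fin (n + 1) → K) → K, ∀ w, Nf w =
    ((A.updateCol (Sum.inl (Sum.inr 0)) (Pi.single r0 1)).updateCol (Sum.inl (Sum.inr 1))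
      (vw e0 w)).det := ⟨_, fun _ => rfl⟩
  have hNadd : ∀ w w', Nf (w + w') = Nf w + Nf w' := by
    intro w w'
    have : vw e0 (w + w') = vw e0 w + vw e0 w' := by
      funext r
      simp only [vw, Pi.add_apply]
      generalize e0 r = r'
      rcases r' with i | b' <;> simp
    rw [hNf, hNf, hNf, this, Matrix.det_updateCol_add]
  have hNsmul : ∀ (a : K) w, Nf (a • w) = a * Nf w := by
    intro a w
    have : vw e0 (a • w) = a • vw e0 w := by
      funext r
      simp only [vw, Pi.smul_apply]
      generalize e0 r = r'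
      rcases r' with i | b' <;> simp
    rw [hNf, hNf, this, Matrix.det_updateCol_smul]
  have hN0 : Nf 0 = 0 := by
    have := hNsmul 0 0
    simpa using this
  have hNsum : ∀ (f : Fin (n + 1) → Fin (n + 1) → K), Nf (∑ i, f i) = ∑ i, Nf (f i) := by
    intro f
    have : ∀ S : Finset (Fin (n + 1)), Nf (∑ i ∈ S, f i) = ∑ i ∈ S, Nf (f i) := by
      intro S
      induction S using Finset.induction_on with
      | empty => simp [hN0]
      | insert i S hi ih => rw [Finset.sum_insert hi, Finset.sum_insert hi, hNadd, ih]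
    exact this _
  have hNne : ∀ w, w ∉ Ut R F x (PQ x Q0) → Nf w ≠ 0 := by
    intro w hw h0
    rw [hNf] at h0
    obtain ⟨v, hv0, hv⟩ := Matrix.exists_mulVec_eq_zero_iff.2 h0
    apply hv0
    rw [hA, hr0] at hv
    obtain ⟨hvc0, hvj, hva⟩ := rows D x _ _ _ _ p e0 w v hv
    obtain ⟨f, hf'⟩ : ∃ f : Fin (n + 1) × Fin s → K, f = fun c =>
      if h : c ∈ T then v (Sum.inl (Sum.inl ⟨c, h⟩)) else 0 := ⟨_, rfl⟩
    have hf : ∀ t : T, v (Sum.inl (Sum.inl t)) = f t := by
      intro t
      rw [hf']
      simp only [dif_pos t.2]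
    -- the rows of the forms
    have hrj : ∀ j : Fin s, f (p, j) = - ∑ c : T0, if c.1.2 = j then x c.1.1 * f c else 0 := by
      intro j
      have h1 := hvj j
      simp only [hf] at h1
      have h4 := hsumT (fun c : Fin (n + 1) × Fin s => if c.2 = j then x c.1 * f c else 0)
      rw [h4] at h1
      have h5 : ∑ j' : Fin s, (if j' = j then x p * f (p, j') else 0) = f (p, j) := by
        rw [Finset.sum_ite_eq']
        simp [hp]
      rw [h5] at h1
      linear_combination h1
    -- the rows of the coordinates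
    have hra : ∑ c : T0, f c • wv x p τ0 c + v (Sum.inl (Sum.inr 1)) • w +
        v (Sum.inr 0) • (fun i => D (x i)) + v (Sum.inr 1) • x = 0 := by
      funext a
      have h1 := hva a
      simp only [hf] at h1
      have h4 := hsumT (fun c : Fin (n + 1) × Fin s => opV (τ0 c.1 c.2) x a * f c)
      have h4' : ∑ t : T, opV (τ t.1.1 t.1.2.castSucc) x a * f t =
          ∑ t : T, opV (τ0 t.1.1 t.1.2) x a * f t := by rw [hτ0]
      rw [h4', h4] at h1
      have h5 : ∑ j : Fin s, opV (τ0 p j) x a * f (p, j) =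
          - ∑ c : T0, x c.1.1 * f c * opV (τ0 p c.1.2) x a := by
        have h6 : ∀ j : Fin s, opV (τ0 p j) x a * f (p, j)
            = - ∑ c : T0, if c.1.2 = j then x c.1.1 * f c * opV (τ0 p j) x a else 0 := by
          intro j
          rw [hrj, mul_neg, Finset.mul_sum]
          congr 1
          refine Finset.sum_congr rfl fun c _ => ?_
          split_ifs
          · ring
          · ring
        simp only [h6]
        rw [Finset.sum_neg_distrib, Finset.sum_comm]
        congr 1
        refine Finset.sum_congr rfl fun c _ => ?_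
        rw [Finset.sum_ite_eq]
        simp
      rw [h5] at h1
      simp only [Pi.add_apply, Finset.sum_apply, Pi.smul_apply, smul_eq_mul, Pi.zero_apply]
      have h7 : ∑ c : T0, f c * wv x p τ0 c a = ∑ c : T0, opV (τ0 c.1.1 c.1.2) x a * f c -
          ∑ c : T0, x c.1.1 * f c * opV (τ0 p c.1.2) x a := by
        rw [← Finset.sum_sub_distrib]
        refine Finset.sum_congr rfl fun c _ => ?_
        simp only [wv, Pi.sub_apply, Pi.smul_apply, smul_eq_mul]
        ring
      rw [h7]
      linear_combination h1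
    have hin : ∑ c : T0, f c • wv x p τ0 c + v (Sum.inr 0) • (fun i => D (x i)) +
        v (Sum.inr 1) • x ∈ Ut R F x (PQ x Q0) := by
      rw [hUt]
      apply Submodule.add_mem
      · apply Submodule.add_mem
        · exact Submodule.sum_mem _ fun c _ => Submodule.smul_mem _ _
            (Submodule.subset_span (Or.inl ⟨_, rfl⟩))
        · exact Submodule.smul_mem _ _ (Submodule.subset_span (Or.inr (Or.inl rfl)))
      · exact Submodule.smul_mem _ _ (Submodule.subset_span (Or.inr (Or.inr rfl)))
    have hvc1 : v (Sum.inl (Sum.inr 1)) = 0 := by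
      by_contra hne1
      apply hw
      have h1 : v (Sum.inl (Sum.inr 1)) • w = -(∑ c : T0, f c • wv x p τ0 c +
          v (Sum.inr 0) • (fun i => D (x i)) + v (Sum.inr 1) • x) := by
        rw [eq_neg_iff_add_eq_zero, ← hra]
        abel
      have h2 : v (Sum.inl (Sum.inr 1)) • w ∈ Ut R F x (PQ x Q0) := by
        rw [h1]
        exact Submodule.neg_mem _ hin
      exact (Submodule.smul_mem_iff _ hne1).1 h2
    rw [hvc1, zero_smul, add_zero] at hra
    -- linear independence
    rw [Fintype.linearIndependent_iff] at hLI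
    have h1 := hLI (Sum.elim (fun c : T0 => f c) ![v (Sum.inr 0), v (Sum.inr 1)]) (by
      rw [Fintype.sum_sum_type, Fin.sum_univ_two]
      simp only [Sum.elim_inl, Sum.elim_inr, Matrix.cons_val_zero, Matrix.cons_val_one]
      rw [← add_assoc]
      exact hra)
    have hfT0 : ∀ c ∈ T0, f c = 0 := fun c hc => h1 (Sum.inl ⟨c, hc⟩)
    have hfp : ∀ j, f (p, j) = 0 := by
      intro j
      rw [hrj, Finset.sum_eq_zero, neg_zero]
      intro c _
      rw [hfT0 c c.2]
      simp
    funext c
    rcases c with (c | t) | t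
    · rw [hf, Pi.zero_apply]
      have hc2 : c.1 ∈ T0 ∪ P0 := hT ▸ c.2
      rcases Finset.mem_union.1 hc2 with hc | hc
      · exact hfT0 c hc
      · rw [hP0] at hc
        obtain ⟨j, _, hj⟩ := Finset.mem_image.1 hc
        rw [← hj]
        exact hfp j
    · rcases (show t = 0 ∨ t = 1 by omega) with rfl | rfl
      · exact hvc0
      · exact hvc1
    · have h2 := h1 (Sum.inr t)
      rcases (show t = 0 ∨ t = 1 by omega) with rfl | rfl
      · exact h2
      · exact h2
  refine ⟨T, e0, fun i => Nf (opV (τ i (Fin.last s)) x), 1, ?_, one_ne_zero, ?_⟩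
  · -- independence
    obtain ⟨ξ, hξ0, hξ1⟩ := hξ
    have hx0 : x ≠ 0 := by
      intro h
      rw [h] at hp
      exact zero_ne_one hp
    unfold Indep
    rw [LinearIndependent.pair_iff' hx0]
    intro a ha
    apply hNne _ hξ1
    rw [hNsum]
    have h1 : ∀ i, Nf (ξ i • opV (τ i (Fin.last s)) x) = a * (ξ i * x i) := by
      intro i
      rw [hNsmul, ← congrFun ha i, Pi.smul_apply, smul_eq_mul]
      ring
    simp only [h1]
    rw [← Finset.mul_sum, hξ0, mul_zero]
  · intro a b
    have hM := M_eq D x (fun c : T => τ c.1.1 c.1.2.castSucc) (fun c : T => c.1.1)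
      (fun c : T => c.1.2) (fun a => τ a (Fin.last s)) p e0 a b
    rw [hM, ← hA, ← hr0, two_cols A h01 r0 (fun c hc hc' => by
      rw [hA, hr0]
      exact AA_row D x _ _ _ _ p e0 c hc hc') _ _ (hvw0 _) (hvw0 _), ← hNf, ← hNf, one_mul]

end Pool.Agent.H90.VG
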