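import Pool.Agent.H17.VG.TargetsB
import Pool.Agent.H92.VG.DA

/-!
# MP_70ba79_ag: row DB of the board `vyc_modules`: second estimate of the determinant
-/

set_option autoImplicit false

namespace Pool.Agent.H90.VG

open Pool.Agent.H17.VG Pool.Agent.H27.LV SC MvPolynomial
open Pool.Agent.H92.VG (lift_velocity det_col)

section

variable {K : Type} [Field K] {n : ℕ}

theorem eval_dir (w x : Fin (n + 1) → K) (G : MvPolynomial (Fin (n + 1)) K) :
    eval x (dir w G) = ∑ a, eval x (pderiv a G) * w a := by
  unfold dir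
  rw [map_sum]
  refine Finset.sum_congr rfl fun a _ => ?_
  rw [map_mul, eval_C, mul_comm]

/-- a derivation over `k` applied to the value of a form with coefficients in `k` -/
theorem D_eval (hEV : T_EV) {k : Type} [Field k] [Algebra k K] (D : Derivation k K K)
    (G : MvPolynomial (Fin (n + 1)) k) (x : Fin (n + 1) → K) :
    D (eval x (up K G)) = ∑ a, eval x (pderiv a (up K G)) * D (x a) := by
  have h := hEV k K n ((D, 0) : Op k K n) (up K G) x
  have h1 : opF ((D, 0) : Op k K n) (up K G) = 0 := by
    unfold opF cD up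
    rw [Finset.sum_eq_zero, zero_add, Finset.sum_eq_zero]
    · intro i _
      rw [Finset.sum_eq_zero, zero_mul]
      intro j _
      simp
    · intro m _
      rw [coeff_map, Derivation.map_algebraMap, map_zero]
  have h2 : opV ((D, 0) : Op k K n) x = fun a => D (x a) := by
    funext a
    simp [opV]
  rw [h1, h2, map_zero, zero_add, eval_dir] at h
  exact h

theorem euler_eval {k : Type} [Field k] [Algebra k K] {e : ℕ}
    (G : MvPolynomial (Fin (n + 1)) k) (hG : G.IsHomogeneous e) (x : Fin (n + 1) → K) :
    ∑ a, eval x (pderiv a (up K G)) * x a = e * eval x (up K G) := by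
  have hG' : (up K G).IsHomogeneous e := hG.map _
  have h := congrArg (eval x) hG'.sum_X_mul_pderiv
  rw [map_sum, map_nsmul, nsmul_eq_mul] at h
  rw [← h]
  refine Finset.sum_congr rfl fun a _ => ?_
  rw [map_mul, eval_X, mul_comm]

end

theorem db (hLL : T_LL) (hGR : T_GR) (hEV : T_EV) : T_DB := by
  classical
  intro R k K _ _ _ _ _ _ _ _ htr n e s F hF hsm D hD x p hp hu Q ι _ _ τ i j e0 hτ hsym v
  obtain ⟨u, hu'⟩ : ∃ u, u = eval x (up K F) := ⟨_, rfl⟩
  rw [← hu'] at hu ⊢
  obtain ⟨q, hq⟩ : ∃ q : ℤ, q = (poleOrder v x : ℤ) := ⟨_, rfl⟩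
  rw [← hq]
  have hdor := dor k K htr D hD v
  obtain ⟨_, a0, hg0, hg0o⟩ := hGR k K htr n e F hF hsm x p hp v
  obtain ⟨g0, hg0'⟩ : ∃ g0, g0 = eval x (pderiv a0 (up K F)) := ⟨_, rfl⟩
  rw [← hg0'] at hg0 hg0o
  rw [← hq] at hg0o
  have hx : ∀ a, ge v (-q) (x a) := fun a => by rw [hq]; exact Or.inr (npole_le v x a)
  have hDx : ∀ a, ge v (-q + (ordD v D - 1)) (D (x a)) := by
    intro a
    by_cases h0 : x a = 0
    · rw [h0, map_zero]
      exact ge_zero v _
    · have h1 := hdor.2.1.2 (x a) h0
      have h2 := npole_le v x a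
      rw [← hq] at h2
      exact h1.mono (by omega)
  -- first column operation
  obtain ⟨M, hM⟩ : ∃ M : Matrix (ι ⊕ Fin 2) (ι ⊕ Fin 2) K,
    M = (bigM D x τ i j).submatrix e0 id := ⟨_, rfl⟩
  obtain ⟨A, hA⟩ : ∃ A : Matrix (ι ⊕ Fin 2) (ι ⊕ Fin 2) K, A = Matrix.of fun r l =>
    M r l + (Sum.elim (fun a => -((τ a).1 v.unif / D v.unif)) (fun _ => 0) l) * M r (Sum.inr 0) :=
    ⟨_, rfl⟩
  have h1 : A.det = M.det := by
    refine det_col
      (Sum.elim (fun a => -((τ a).1 v.unif / D v.unif)) (fun _ => 0)) (Sum.inr 0) rfl ?_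
    intro r l
    rw [hA, Matrix.of_apply]
  -- the entries of `A`
  have hAe : ∀ r l, A r l = Sum.elim (fun a => Sum.elim
      (fun c => opV (τ c) x a - (τ c).1 v.unif / D v.unif * D (x a))
      (fun t : Fin 2 => if t = 0 then D (x a) else x a) l)
      (fun b => Sum.elim (fun c => if j c = b then x (i c) else 0) (fun _ => 0) l) (e0 r) := by
    intro r l
    rw [hA, Matrix.of_apply, hM]
    simp only [Matrix.submatrix_apply, id]
    generalize e0 r = r'
    rcases r' with a | b
    · rcases l with c | t
      · simp only [bigM, Matrix.of_apply, Sum.elim_inl, if_true]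
        ring
      · simp only [bigM, Matrix.of_apply, Sum.elim_inl, Sum.elim_inr, zero_mul, add_zero]
    · rcases l with c | t
      · simp only [bigM, Matrix.of_apply, Sum.elim_inl, Sum.elim_inr, mul_zero, add_zero]
      · simp only [bigM, Matrix.of_apply, Sum.elim_inr, mul_zero, add_zero]
  -- the row operation
  obtain ⟨r0, hr0⟩ : ∃ r0, r0 = e0.symm (Sum.inl a0) := ⟨_, rfl⟩
  obtain ⟨w, hw⟩ : ∃ w : ι ⊕ Fin 2 → K, w = fun r => Sum.elim
    (fun a => eval x (pderiv a (up K F))) (fun b => eval x (up K (Q b))) (e0 r) := ⟨_, rfl⟩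
  have hwr0 : w r0 = g0 := by
    rw [hw, hr0, hg0']
    simp only [Equiv.apply_symm_apply, Sum.elim_inl]
  have h2 : (A.updateRow r0 (∑ r, w r • A r)).det = g0 * A.det := by
    rw [Matrix.det_updateRow_sum, hwr0, smul_eq_mul]
  have hsum : ∀ l, (∑ r, w r • A r) l = Sum.elim
      (fun c => (τ c).1 u - (τ c).1 v.unif / D v.unif * D u)
      (fun t : Fin 2 => if t = 0 then D u else (e + 1 : ℕ) * u) l := by
    intro l
    have h3 : (∑ r, w r • A r) l = ∑ r : Fin (n + 1) ⊕ Fin s, Sum.elim
        (fun a => eval x (pderiv a (up K F))) (fun b => eval x (up K (Q b))) r *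
        Sum.elim (fun a => Sum.elim
          (fun c => opV (τ c) x a - (τ c).1 v.unif / D v.unif * D (x a))
          (fun t : Fin 2 => if t = 0 then D (x a) else x a) l)
        (fun b => Sum.elim (fun c => if j c = b then x (i c) else 0) (fun _ => 0) l) r := by
      rw [Finset.sum_apply, ← Equiv.sum_comp e0]
      refine Finset.sum_congr rfl fun r _ => ?_
      rw [Pi.smul_apply, smul_eq_mul, hAe, hw]
    rw [h3, Fintype.sum_sum_type]
    simp only [Sum.elim_inl, Sum.elim_inr]
    rcases l with c | t
    · simp only [Sum.elim_inl, mul_ite, mul_zero]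
      rw [Finset.sum_ite_eq]
      simp only [Finset.mem_univ, if_true]
      have h4 := hEV R K n (τ c) (up K F) x
      rw [hsym, eval_dir, map_mul, eval_X, ← hu'] at h4
      have h5 := D_eval hEV D F x
      rw [← hu'] at h5
      rw [h4, h5]
      simp only [mul_sub, Finset.sum_sub_distrib]
      have h6 : ∑ a, eval x (pderiv a (up K F)) * ((τ c).1 v.unif / D v.unif * D (x a)) =
          (τ c).1 v.unif / D v.unif * ∑ a, eval x (pderiv a (up K F)) * D (x a) := by
        rw [Finset.mul_sum]
        refine Finset.sum_congr rfl fun a _ => by ring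
      rw [h6]
      ring
    · simp only [Sum.elim_inr, mul_zero, Finset.sum_const_zero, add_zero]
      rcases (show t = 0 ∨ t = 1 by omega) with rfl | rfl
      · simp only [if_true]
        rw [hu']
        exact (D_eval hEV D F x).symm
      · simp only [one_ne_zero, if_false]
        rw [hu']
        exact euler_eval F hF x
  -- estimate of the entries
  have hentry : ∀ r l, ge v ((if r = r0 then v.ord u else -q) + (Sum.elim (fun _ => 0)
      (fun t : Fin 2 => if t = 0 then ordD v D - 1 else 0) l))
      ((A.updateRow r0 (∑ r, w r • A r)) r l) := by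
    intro r l
    by_cases hr : r = r0
    · rw [hr, Matrix.updateRow_self, hsum, if_pos rfl]
      rcases l with c | t
      · simp only [Sum.elim_inl, add_zero]
        exact hLL R k K htr (τ c).1 (hτ c).1 D hD v u
      · rcases (show t = 0 ∨ t = 1 by omega) with rfl | rfl
        · simp only [Sum.elim_inr, if_true]
          exact (hdor.2.1.2 u hu).mono (by omega)
        · simp only [Sum.elim_inr, one_ne_zero, if_false, add_zero]
          have h3 : ge v 0 (((e + 1 : ℕ) : K)) := by
            have := ge_const v ((e + 1 : ℕ) : k)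
            rwa [map_natCast] at this
          have h4 := h3.mul (ge_of_ord v (x := u))
          rwa [zero_add] at h4
    · rw [Matrix.updateRow_ne hr, if_neg hr, hAe]
      generalize e0 r = r'
      rcases r' with a | b
      · rcases l with c | t
        · simp only [Sum.elim_inl, add_zero]
          rw [hq]
          exact lift_velocity hLL htr D hD x (τ c) (hτ c) v a
        · rcases (show t = 0 ∨ t = 1 by omega) with rfl | rfl
          · simp only [Sum.elim_inl, Sum.elim_inr, if_true]
            exact hDx a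
          · simp only [Sum.elim_inl, Sum.elim_inr, one_ne_zero, if_false, add_zero]
            exact hx a
      · rcases l with c | t
        · simp only [Sum.elim_inl, Sum.elim_inr, add_zero]
          split_ifs
          · exact hx _
          · exact ge_zero v _
        · simp only [Sum.elim_inr]
          exact ge_zero v _
  have h3 := Pool.Agent.H70.LV.wdt k K v (ι ⊕ Fin 2) _ _ _ hentry
  rw [h2, h1, hM] at h3
  have hcard : Fintype.card ι + 2 = n + 1 + s := by
    have := Fintype.card_congr e0
    simpa using this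
  have h4 : (∑ r : ι ⊕ Fin 2, (if r = r0 then v.ord u else -q)) =
      v.ord u - (n + s) * q := by
    have h5 : ∀ r : ι ⊕ Fin 2, (if r = r0 then v.ord u else -q) =
        (if r = r0 then v.ord u + q else 0) + (-q) := by
      intro r
      split_ifs <;> ring
    simp only [h5]
    rw [Finset.sum_add_distrib, Finset.sum_ite_eq', Finset.sum_const, Finset.card_univ,
      Fintype.card_sum, Fintype.card_fin, hcard]
    simp only [Finset.mem_univ, if_true, nsmul_eq_mul]
    push_cast
    ring
  have h5 : (∑ l : ι ⊕ Fin 2, (Sum.elim (fun _ => 0)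
      (fun t : Fin 2 => if t = 0 then ordD v D - 1 else 0) l : ℤ)) = ordD v D - 1 := by
    rw [Fintype.sum_sum_type, Fin.sum_univ_two]
    simp
  rw [h4, h5] at h3
  have h6 : ge v (e * q) g0⁻¹ := Or.inr (by rw [v.ord_inv, hg0o]; omega)
  have h7 := h6.mul h3
  rw [← mul_assoc, inv_mul_cancel₀ hg0, one_mul] at h7
  refine h7.mono (le_of_eq ?_)
  ring

end Pool.Agent.H90.VG
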