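import Mathlib
import Pool.Agent.H95.VG.Targets1

/-!
# VG module DIV: divergence theorem for divergence free holomorphic fields
-/

open MeasureTheory Set Filter Topology
open scoped ENNReal NNReal ContDiff ComplexConjugate

namespace Pool.Agent.H90.VG

open Pool.Agent.H95.VG

theorem int_fderiv_zero {n : ℕ} {H : V n → ℂ} (hH : ContDiff ℝ 1 H) (hc : HasCompactSupport H)
    (v : V n) : Integrable (fun z => fderiv ℝ H z v) ∧ ∫ z, fderiv ℝ H z v = 0 := by
  have hcd : Continuous (fun z => fderiv ℝ H z v) :=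
    (hH.continuous_fderiv one_ne_zero).clm_apply continuous_const
  have hcs : HasCompactSupport (fun z => fderiv ℝ H z v) := by
    have := hc.fderiv (𝕜 := ℝ)
    refine this.comp_left (g := fun L : V n →L[ℝ] ℂ => L v) (by simp)
  have hi : Integrable (fun z => fderiv ℝ H z v) := hcd.integrable_of_hasCompactSupport hcs
  refine ⟨hi, ?_⟩
  have := integral_mul_fderiv_eq_neg_fderiv_mul_of_integrable (μ := (volume : Measure (V n)))
    (f := fun _ => (1 : ℂ)) (g := H) (v := v) (by simp) (by simpa using hi)
    (by simpa using hH.continuous.integrable_of_hasCompactSupport hc)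
    (fun x _ => differentiableAt_const _) (fun x _ => hH.differentiable (by norm_num) x)
  simpa using this

theorem int_dzb_zero {n : ℕ} {H : V n → ℂ} (hH : ContDiff ℝ 1 H) (hc : HasCompactSupport H)
    (v : V n) : Integrable (fun z => dzb H z v) ∧ ∫ z, dzb H z v = 0 := by
  obtain ⟨i1, e1⟩ := int_fderiv_zero hH hc v
  obtain ⟨i2, e2⟩ := int_fderiv_zero hH hc (Complex.I • v)
  constructor
  · exact (i1.add (i2.const_mul _)).div_const _
  · unfold dzb
    rw [integral_div, integral_add i1 (i2.const_mul _), integral_const_mul, e1, e2]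
    simp

theorem div (h0 : T_SMO) (h1 : T_LIN) (h2 : T_PRD) : T_DIV := by
  intro n O F b G hO hF hdiv hb hG hGc hGO
  set H : Fin n → V n → ℂ := fun j x => (b x * conj (F x j)) * G x with hHdef
  have hFj : ∀ j, DifferentiableOn ℂ (fun x => F x j) O := fun j =>
    (differentiableOn_pi.1 hF) j
  have hbR : ContDiffOn ℝ ∞ b O := (h0 n ℂ O b hO hb).2.1
  have hFR : ∀ j, ContDiffOn ℝ ∞ (fun x => F x j) O := fun j =>
    (h0 n ℂ O _ hO (hFj j)).2.1
  have hout : ∀ x, x ∉ O → G =ᶠ[𝓝 x] 0 := by
    intro x hx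
    have : x ∉ tsupport G := fun h => hx (hGO h)
    exact notMem_tsupport_iff_eventuallyEq.1 this
  have hHout : ∀ j x, x ∉ O → H j =ᶠ[𝓝 x] 0 := by
    intro j x hx
    filter_upwards [hout x hx] with y hy
    simp [hHdef, hy]
  have hHc : ∀ j, ContDiff ℝ 1 (H j) := by
    intro j
    rw [contDiff_iff_contDiffAt]
    intro x
    by_cases hx : x ∈ O
    · have hn := hO.mem_nhds hx
      have a1 : ContDiffAt ℝ 1 b x := ((hbR.contDiffAt hn).of_le (by norm_num))
      have a2 : ContDiffAt ℝ 1 (fun x => F x j) x := (((hFR j).contDiffAt hn).of_le (by norm_num))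
      have a3 : ContDiffAt ℝ 1 (fun x => conj (F x j)) x :=
        (Complex.conjCLE.contDiff.contDiffAt (x := F x j)).comp x a2
      exact (a1.mul a3).mul hG.contDiffAt
    · have hz : H j =ᶠ[𝓝 x] fun _ => (0:ℂ) := hHout j x hx
      exact contDiffAt_const.congr_of_eventuallyEq hz
  have hHs : ∀ j, HasCompactSupport (H j) := fun j => hGc.mul_left
  have key : ∀ z, z ∈ O → b z * dzb G z (F z) = ∑ j, dzb (H j) z (ek j) := by
    intro z hz
    have hn := hO.mem_nhds hz
    have d1 : DifferentiableAt ℝ b z := ((hbR.contDiffAt hn).differentiableAt (by simp))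
    have d1c : DifferentiableAt ℂ b z := hb.differentiableAt hn
    have d3 : DifferentiableAt ℝ G z := hG.differentiable (by norm_num) z
    have e0 : ∀ j, dzb (H j) z (ek j) = b z * conj (F z j) * dzb G z (ek j)
        + G z * (b z * conj (fderiv ℂ (fun x => F x j) z (ek j))) := by
      intro j
      have d2 : DifferentiableAt ℝ (fun x => F x j) z :=
        (((hFR j).contDiffAt hn).differentiableAt (by simp))
      have d2c : DifferentiableAt ℂ (fun x => F x j) z := (hFj j).differentiableAt hn
      have d4 : DifferentiableAt ℝ (fun x => conj (F x j)) z :=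
        (Complex.conjCLE.differentiableAt (x := F z j)).comp z d2
      rw [hHdef]
      rw [((h2 n z (ek j)).1 (fun x => b x * conj (F x j)) G (d1.mul d4) d3).2]
      rw [((h2 n z (ek j)).1 b (fun x => conj (F x j)) d1 d4).2]
      rw [((h1 n z).2.1 (fun x => F x j) (ek j) d2).1]
      rw [((h1 n z).2.2.1 (fun x => F x j) (ek j) d2c).1]
      rw [((h1 n z).2.2.1 b (ek j) d1c).2]
      ring
    rw [Finset.sum_congr rfl (fun j _ => e0 j), Finset.sum_add_distrib, ← Finset.mul_sum,
      ← Finset.mul_sum, ← map_sum, hdiv z hz]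
    rw [((h1 n z).1 G (F z) (F z) 1).2.2.2.2.2.1]
    rw [Finset.mul_sum]
    simp only [map_zero, mul_zero, add_zero]
    refine Finset.sum_congr rfl fun j _ => ?_
    ring
  have hz0 : ∀ j z, z ∉ O → dzb (H j) z (ek j) = 0 := by
    intro j z hz
    have : fderiv ℝ (H j) z = 0 := by
      rw [(hHout j z hz).fderiv_eq]
      simp
    simp [dzb, this]
  calc ∫ z in O, b z * dzb G z (F z) = ∫ z in O, ∑ j, dzb (H j) z (ek j) := by
        exact setIntegral_congr_fun hO.measurableSet (fun z hz => key z hz)
    _ = ∫ z, ∑ j, dzb (H j) z (ek j) := by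
        refine setIntegral_eq_integral_of_forall_compl_eq_zero fun z hz => ?_
        exact Finset.sum_eq_zero fun j _ => hz0 j z hz
    _ = ∑ j, ∫ z, dzb (H j) z (ek j) :=
        integral_finsetSum _ fun j _ => (int_dzb_zero (hHc j) (hHs j) _).1
    _ = 0 := Finset.sum_eq_zero fun j _ => (int_dzb_zero (hHc j) (hHs j) _).2

end Pool.Agent.H90.VG
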