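import Mathlib
import Pool.Agent.H95.VG.Targets1

/-!
# VG module DOM: dominations by the sum of minors
-/

open MeasureTheory Set Filter Topology
open scoped ENNReal NNReal ContDiff ComplexConjugate

namespace Pool.Agent.H90.VG

open Pool.Agent.H95.VG

theorem row_mix {n : ℕ} (Y : V n → V n) (z : V n) (hY : DifferentiableAt ℂ Y z)
    (Φ : Fin n → Fin n ⊕ Fin n) (i : Fin n) :
    jac (mix Φ Y) z i = Sum.elim (fun j => ek j) (jac Y z) (Φ i) := by
  have hd : DifferentiableAt ℂ (mix Φ Y) z := by
    rw [differentiableAt_pi]
    intro l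
    unfold mix
    rcases hl : Φ l with m | m
    · simp only [Sum.elim_inl]
      exact differentiableAt_apply m z
    · simp only [Sum.elim_inr]
      exact differentiableAt_pi.1 hY m
  funext j
  have h1 : jac (mix Φ Y) z i j = fderiv ℂ (fun x => mix Φ Y x i) z (ek j) := by
    show fderiv ℂ (mix Φ Y) z (ek j) i = _
    rw [fderiv_apply hd]; rfl
  rw [h1]
  rcases hl : Φ i with m | m
  · have : (fun x => mix Φ Y x i) = fun x : V n => x m := by
      funext x; simp [mix, hl]
    rw [this, Sum.elim_inl]
    have h2 : fderiv ℂ (fun x : V n => x m) z = ContinuousLinearMap.proj m :=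
      (ContinuousLinearMap.proj (R := ℂ) (φ := fun _ : Fin n => ℂ) m).fderiv
    rw [h2]
    simp [ek, Pi.single_apply, eq_comm]
  · have : (fun x => mix Φ Y x i) = fun x : V n => Y x m := by
      funext x; simp [mix, hl]
    rw [this, Sum.elim_inr]
    show _ = fderiv ℂ Y z (ek j) m
    rw [fderiv_apply hY]; rfl

theorem term_le {n : ℕ} (Y : V n → V n) (z : V n) (Φ : Fin n → Fin n ⊕ Fin n) :
    ‖(jac (mix Φ Y) z).det‖ ^ 2 ≤ Dm Y z :=
  Finset.single_le_sum (f := fun Φ : Fin n → Fin n ⊕ Fin n => ‖(jac (mix Φ Y) z).det‖ ^ 2)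
    (fun _ _ => by positivity) (Finset.mem_univ Φ)

theorem mix_inr {n : ℕ} (Y : V n → V n) : mix (fun i => Sum.inr i) Y = Y := by
  funext z i; simp [mix]

theorem dom : T_DOM := by
  intro n Y z hY
  have hrow := row_mix Y z hY
  have hcof : ∀ Φ k i, ‖cf (mix Φ Y) k z i‖ ^ 2 ≤ Dm Y z := by
    intro Φ k i
    have e : cf (mix Φ Y) k z i = (jac (mix (Function.update Φ k (Sum.inl i)) Y) z).det := by
      show (jac (mix Φ Y) z).adjugate i k = _
      rw [Matrix.adjugate_apply]
      congr 1
      funext l
      rw [hrow]
      by_cases hl : l = k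
      · subst hl
        simp [Matrix.updateRow_self, ek]
      · rw [Matrix.updateRow_ne hl, hrow, Function.update_of_ne hl]
    rw [e]
    exact term_le Y z _
  refine ⟨?_, ?_, ?_, hcof, ?_, hrow, ?_⟩
  · have e : (jac (mix (fun i => Sum.inl i) Y) z).det = 1 := by
      have : jac (mix (fun i => Sum.inl i) Y) z = 1 := by
        funext i
        rw [hrow]
        funext j
        simp [ek, Matrix.one_apply, Pi.single_apply, eq_comm]
      rw [this, Matrix.det_one]
    have := term_le Y z (fun i => Sum.inl i)
    rw [e] at this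
    simpa using this
  · have := term_le Y z (fun i => Sum.inr i)
    rwa [mix_inr] at this
  · intro i j
    have e : (jac (mix (Function.update (fun i => Sum.inl i) j (Sum.inr i)) Y) z).det
        = jac Y z i j := by
      have h : jac (mix (Function.update (fun i => Sum.inl i) j (Sum.inr i)) Y) z
          = (1 : Matrix (Fin n) (Fin n) ℂ).updateRow j (jac Y z i) := by
        funext l
        rw [hrow]
        by_cases hl : l = j
        · subst hl
          simp [Matrix.updateRow_self]
        · rw [Matrix.updateRow_ne hl, Function.update_of_ne hl]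
          funext m
          simp [ek, Matrix.one_apply, Pi.single_apply, eq_comm]
      rw [h, ← Matrix.cramer_transpose_apply, Matrix.transpose_one, Matrix.cramer_one]
      rfl
    rw [← e]
    exact term_le Y z _
  · intro k i
    have := hcof (fun i => Sum.inr i) k i
    rwa [mix_inr] at this
  · intro k
    rw [mix_inr]

end Pool.Agent.H90.VG
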