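import Mathlib
import Pool.Agent.H95.VG.Targets1

/-!
# VG module SFO: first order identity across the singular set
-/

open MeasureTheory Set Filter Topology Function
open scoped ENNReal NNReal ContDiff ComplexConjugate

namespace Pool.Agent.H90.VG

open Pool.Agent.H95.VG

/-- differentiability of `mix` -/
theorem mix_diff {n : ℕ} {Y : V n → V n} {O : Set (V n)} (hY : DifferentiableOn ℂ Y O)
    (Φ : Fin n → Fin n ⊕ Fin n) : DifferentiableOn ℂ (mix Φ Y) O := by
  rw [differentiableOn_pi]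
  intro l
  unfold mix
  rcases hl : Φ l with m | m
  · simp only [Sum.elim_inl]
    exact (differentiable_apply m).differentiableOn
  · simp only [Sum.elim_inr]
    exact differentiableOn_pi.1 hY m

theorem dzb_of_eventuallyEq {n : ℕ} {g h : V n → ℂ} {z : V n} (e : g =ᶠ[𝓝 z] h) (v : V n) :
    dzb g z v = dzb h z v := by
  unfold dzb
  rw [e.fderiv_eq]

/-- Cauchy-Schwarz for lower integrals -/
theorem cs_lint {n : ℕ} (μ : Measure (V n)) (f g : V n → ℝ) (hf : AEMeasurable f μ)
    (hg : AEMeasurable g μ) (hf0 : ∀ z, 0 ≤ f z) (hg0 : ∀ z, 0 ≤ g z) :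
    ∫⁻ z, ENNReal.ofReal (f z * g z) ∂μ
      ≤ (∫⁻ z, ENNReal.ofReal (f z ^ 2) ∂μ) ^ ((1 : ℝ) / 2) *
        (∫⁻ z, ENNReal.ofReal (g z ^ 2) ∂μ) ^ ((1 : ℝ) / 2) := by
  have h := ENNReal.lintegral_mul_le_Lp_mul_Lq μ Real.HolderConjugate.two_two
    (f := fun z => ENNReal.ofReal (f z)) (g := fun z => ENNReal.ofReal (g z))
    hf.ennreal_ofReal hg.ennreal_ofReal
  have e1 : ∀ z, ENNReal.ofReal (f z * g z) = ENNReal.ofReal (f z) * ENNReal.ofReal (g z) :=
    fun z => ENNReal.ofReal_mul (hf0 z)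
  have e2 : ∀ z, ENNReal.ofReal (f z ^ 2) = ENNReal.ofReal (f z) ^ (2 : ℝ) := fun z => by
    rw [ENNReal.ofReal_rpow_of_nonneg (hf0 z) (by norm_num)]; norm_num
  have e3 : ∀ z, ENNReal.ofReal (g z ^ 2) = ENNReal.ofReal (g z) ^ (2 : ℝ) := fun z => by
    rw [ENNReal.ofReal_rpow_of_nonneg (hg0 z) (by norm_num)]; norm_num
  simp only [e1, e2, e3]
  exact h

theorem sfo (h1 : T_LIN) (h2 : T_PRD) (h3 : T_PIO) (h4 : T_DIV) (h5 : T_OAO) :
    T_SFO := by
  intro n X _ _ ι A f I hS a Φ k K R G b hKD hK hR hG hGsupp hGb hb hb2 hint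
  obtain ⟨hOopen, hYhol, hclo, hRsub, hOsub, -⟩ := h5 n X ι A f I hS a
  set O := Oa A f I a with hOdef
  set Y := FF A f a with hYdef
  obtain ⟨hFhol, hFdiv⟩ := h3 n O (mix Φ Y) hOopen (mix_diff hYhol Φ) k
  set F := cf (mix Φ Y) k with hFdef
  obtain ⟨C, hC⟩ := hGb
  obtain ⟨Cs, hCs, hCse⟩ := hclo R hR.le
  obtain ⟨c, hcs, hc01, hc0, hc1, hcE⟩ := hS.s2 K hKD hK
  have hOD : O ⊆ Dp n \ I := fun z hz => hz.1
  -- the set where `G` lives
  have hGK : ∀ z ∈ O, z ∈ closure {w | w ∈ O ∧ G w ≠ 0} → z ∈ K := by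
    intro z _ hz
    have : {w | w ∈ O ∧ G w ≠ 0} ⊆ K := fun w hw => (hGsupp w hw.1 hw.2).1
    exact hK.isClosed.closure_subset_iff.2 this hz
  -- the cut off functions
  set g : ℕ → V n → ℂ := fun j => O.indicator (fun z => ((c j z : ℝ) : ℂ) * G z) with hgdef
  have hgsupp : ∀ j, support (g j) ⊆ {w | w ∈ O ∧ G w ≠ 0 ∧ c j w ≠ 0} := by
    intro j w hw
    rw [mem_support] at hw
    by_cases hwO : w ∈ O
    · rw [hgdef] at hw
      simp only [indicator_of_mem hwO] at hw
      refine ⟨hwO, fun h => hw (by simp [h]), fun h => hw (by simp [h])⟩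
    · exact absurd (by simp [hgdef, hwO]) hw
  have hgt : ∀ j, tsupport (g j) ⊆ O ∩ K := by
    intro j z hz
    have hzK : z ∈ K := by
      have : support (g j) ⊆ K := fun w hw => (hGsupp w (hgsupp j hw).1 (hgsupp j hw).2.1).1
      exact hK.isClosed.closure_subset_iff.2 this hz
    have hzC : z ∈ Cs := by
      have : support (g j) ⊆ Cs := by
        intro w hw
        have h1 := hgsupp j hw
        have h2 := (hGsupp w h1.1 h1.2.1).2
        have h3 : w ∈ (Dp n \ I) ∩ Cb A f a R := ⟨hOD h1.1, h2⟩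
        rw [hCse] at h3
        exact h3.2
      exact hCs.closure_subset_iff.2 this hz
    have hzI : z ∉ I := by
      intro hzI
      have h := hc0 j z ⟨hzK, hzI⟩
      have h' : ∃ᶠ w in 𝓝 z, w ∈ support (g j) := mem_closure_iff_frequently.1 hz
      obtain ⟨w, hw1, hw2⟩ := (h'.and_eventually h).exists
      exact (hgsupp j hw1).2.2 hw2
    have hzDI : z ∈ Dp n \ I := ⟨hKD hzK, hzI⟩
    have : z ∈ (Dp n \ I) ∩ Cb A f a R := by
      rw [hCse]; exact ⟨hzDI, hzC⟩
    exact ⟨hRsub R hR this, hzK⟩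
  have hgcs : ∀ j, HasCompactSupport (g j) := fun j =>
    hK.of_isClosed_subset (isClosed_tsupport _) (fun z hz => (hgt j hz).2)
  have hcC : ∀ j, ContDiff ℝ 1 (fun z => ((c j z : ℝ) : ℂ)) := fun j =>
    Complex.ofRealCLM.contDiff.comp ((hcs j).of_le (by norm_num))
  have hgev : ∀ j, ∀ z ∈ O, g j =ᶠ[𝓝 z] fun z => ((c j z : ℝ) : ℂ) * G z := by
    intro j z hz
    filter_upwards [hOopen.mem_nhds hz] with w hw
    simp [hgdef, hw]
  have hgC1 : ∀ j, ContDiff ℝ 1 (g j) := by
    intro j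
    rw [contDiff_iff_contDiffAt]
    intro z
    by_cases hz : z ∈ O
    · exact ((hcC j).contDiffAt.mul (hG.contDiffAt (hOopen.mem_nhds hz))).congr_of_eventuallyEq
        (hgev j z hz)
    · have hz' : z ∉ tsupport (g j) := fun h => hz (hgt j h).1
      have hz2 : g j =ᶠ[𝓝 z] fun _ => (0:ℂ) := notMem_tsupport_iff_eventuallyEq.1 hz'
      exact contDiffAt_const.congr_of_eventuallyEq hz2
  have hzero : ∀ j, ∫ z in O, b z * dzb (g j) z (F z) = 0 := fun j =>
    h4 n O F b (g j) hOopen hFhol hFdiv hb (hgC1 j) (hgcs j) (fun z hz => (hgt j hz).1)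
  -- splitting
  set T1 : ℕ → V n → ℂ := fun j z => (c j z : ℂ) * (b z * dzb G z (F z)) with hT1
  set T2 : ℕ → V n → ℂ := fun j z => b z * G z * conj (dr (c j) z (F z)) with hT2
  have hsplit : ∀ j, ∀ z ∈ O, b z * dzb (g j) z (F z) = T1 j z + T2 j z := by
    intro j z hz
    rw [dzb_of_eventuallyEq (hgev j z hz)]
    have d1 : DifferentiableAt ℝ (fun z => ((c j z : ℝ) : ℂ)) z :=
      (hcC j).differentiable (by norm_num) z
    have d2 : DifferentiableAt ℝ G z :=
      (hG.contDiffAt (hOopen.mem_nhds hz)).differentiableAt (by norm_num)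
    have d3 : DifferentiableAt ℝ (c j) z := (hcs j).differentiable (by simp) z
    rw [((h2 n z (F z)).1 _ G d1 d2).2, ((h1 n z).2.2.2.1 (c j) (F z) d3).2]
    simp only [hT1, hT2]
    ring
  -- T2 is integrable for large `j`, with integral tending to zero
  set S : Set (V n) := O ∩ (K ∩ Cb A f a R) with hSdef
  have hSm : MeasurableSet S := by
    have : S = O ∩ (K ∩ Cs) := by
      ext z
      constructor
      · rintro ⟨hz, hz1, hz2⟩
        have h3 : z ∈ (Dp n \ I) ∩ Cb A f a R := ⟨hOD hz, hz2⟩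
        rw [hCse] at h3
        exact ⟨hz, hz1, h3.2⟩
      · rintro ⟨hz, hz1, hz2⟩
        have h3 : z ∈ (Dp n \ I) ∩ Cs := ⟨hOD hz, hz2⟩
        rw [← hCse] at h3
        exact ⟨hz, hz1, h3.2⟩
    rw [this]
    exact hOopen.measurableSet.inter (hK.isClosed.measurableSet.inter hCs.measurableSet)
  have hSO : S ⊆ O := fun z hz => hz.1
  have hSsub : S ⊆ (K \ I) ∩ Cb A f a 2 := by
    rintro z ⟨hz, hz1, hz2⟩
    exact ⟨⟨hz1, (hOD hz).2⟩, hz2.1, Metric.closedBall_subset_closedBall hR.le hz2.2⟩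
  have hbc : ContinuousOn b O := hb.continuousOn
  have hFc : ContinuousOn F O := hFhol.continuousOn
  have hGc : ContinuousOn G O := hG.continuousOn
  have hdrc : ∀ j, ContinuousOn (fun z => dr (c j) z (F z)) O := by
    intro j
    have h := (hcs j).continuous_fderiv (by simp)
    unfold dr
    have a1 : ContinuousOn (fun z => fderiv ℝ (c j) z (F z)) O := h.continuousOn.clm_apply hFc
    have a3 : ContinuousOn (fun z => Complex.I • F z) O :=
      (continuous_const_smul Complex.I).comp_continuousOn hFc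
    have a2 : ContinuousOn (fun z => fderiv ℝ (c j) z (Complex.I • F z)) O :=
      h.continuousOn.clm_apply a3
    exact ((Complex.continuous_ofReal.comp_continuousOn a1).sub
      (continuousOn_const.mul (Complex.continuous_ofReal.comp_continuousOn a2))).div_const _
  have hT2c : ∀ j, ContinuousOn (T2 j) O := fun j =>
    (hbc.mul hGc).mul (Complex.continuous_conj.comp_continuousOn (hdrc j))
  have hT2m : ∀ j, AEStronglyMeasurable (T2 j) (volume.restrict O) := fun j =>
    (hT2c j).aestronglyMeasurable hOopen.measurableSet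
  set C' : ℝ := max C 0 with hC'
  have hC'0 : 0 ≤ C' := le_max_right _ _
  have hCC : ∀ z ∈ O, ‖G z‖ ≤ C' := fun z hz => (hC z hz).trans (le_max_left _ _)
  set E : ℕ → ℝ≥0∞ := fun j => ENNReal.ofReal C' *
    ((∫⁻ z in S, ENNReal.ofReal (‖b z‖ ^ 2)) ^ ((1 : ℝ) / 2) *
      (∫⁻ z in (K \ I) ∩ Cb A f a 2, ENNReal.ofReal (ge (c j) z (F z))) ^ ((1 : ℝ) / 2)) with hE
  have hT2E : ∀ j, ∫⁻ z in O, ‖T2 j z‖ₑ ≤ E j := by
    intro j
    have e1 : ∫⁻ z in O, ‖T2 j z‖ₑ = ∫⁻ z in S, ‖T2 j z‖ₑ := by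
      have : ∫⁻ z in O, ‖T2 j z‖ₑ = ∫⁻ z in O, S.indicator (fun z => ‖T2 j z‖ₑ) z := by
        refine setLIntegral_congr_fun hOopen.measurableSet fun z hz => ?_
        by_cases hzS : z ∈ S
        · simp [hzS]
        · have hG0 : G z = 0 := by
            by_contra hne
            exact hzS ⟨hz, hGsupp z hz hne⟩
          simp [hzS, hT2, hG0]
      rw [this, setLIntegral_indicator hSm, inter_eq_self_of_subset_left hSO]
    rw [e1]
    have e2 : ∫⁻ z in S, ‖T2 j z‖ₑ ≤ ∫⁻ z in S, ENNReal.ofReal C' *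
        ENNReal.ofReal (‖b z‖ * ‖dr (c j) z (F z)‖) := by
      refine setLIntegral_mono' hSm fun z hz => ?_
      rw [← ENNReal.ofReal_mul hC'0, ← ofReal_norm]
      refine ENNReal.ofReal_le_ofReal ?_
      simp only [hT2, norm_mul, RCLike.norm_conj]
      have := hCC z (hSO hz)
      have h1 : 0 ≤ ‖b z‖ := norm_nonneg _
      have h2 : 0 ≤ ‖dr (c j) z (F z)‖ := norm_nonneg _
      nlinarith [mul_nonneg h1 h2]
    refine e2.trans ?_
    rw [lintegral_const_mul' _ _ ENNReal.ofReal_ne_top, hE]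
    refine mul_le_mul_right ?_ _
    refine (cs_lint (volume.restrict S) (fun z => ‖b z‖) (fun z => ‖dr (c j) z (F z)‖)
      ?_ ?_ (fun z => norm_nonneg _) (fun z => norm_nonneg _)).trans ?_
    · exact ((hbc.norm.mono hSO).aemeasurable hSm)
    · exact (((hdrc j).norm.mono hSO).aemeasurable hSm)
    · refine mul_le_mul_right ?_ _
      refine ENNReal.rpow_le_rpow ?_ (by norm_num)
      exact lintegral_mono_set hSsub
  have hElim : Tendsto E atTop (𝓝 0) := by
    have h1 := hcE a Φ k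
    have h2 : Tendsto (fun j => (∫⁻ z in (K \ I) ∩ Cb A f a 2,
        ENNReal.ofReal (ge (c j) z (F z))) ^ ((1 : ℝ) / 2)) atTop (𝓝 0) := by
      have := (ENNReal.continuous_rpow_const (y := (1:ℝ)/2)).tendsto (0 : ℝ≥0∞) |>.comp h1
      simpa [Function.comp_def] using this
    have hb2' : (∫⁻ z in S, ENNReal.ofReal (‖b z‖ ^ 2)) ^ ((1 : ℝ) / 2) ≠ ⊤ :=
      ENNReal.rpow_ne_top_of_nonneg (by norm_num) hb2.ne
    have h3 := ENNReal.Tendsto.const_mul h2 (Or.inr hb2')
    have h4 := ENNReal.Tendsto.const_mul h3 (Or.inr (ENNReal.ofReal_ne_top (r := C')))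
    simp only [mul_zero] at h4
    exact h4
  have hT2lim : Tendsto (fun j => ∫ z in O, T2 j z) atTop (𝓝 0) := by
    rw [tendsto_zero_iff_norm_tendsto_zero]
    have h1 : ∀ j, ENNReal.ofReal ‖∫ z in O, T2 j z‖ ≤ E j := fun j => by
      rw [ofReal_norm]
      exact (enorm_integral_le_lintegral_enorm _).trans (hT2E j)
    have h2 : Tendsto (fun j => ENNReal.ofReal ‖∫ z in O, T2 j z‖) atTop (𝓝 0) :=
      tendsto_of_tendsto_of_tendsto_of_le_of_le tendsto_const_nhds hElim (fun _ => zero_le) h1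
    have h3 := (ENNReal.tendsto_toReal ENNReal.zero_ne_top).comp h2
    simpa [Function.comp_def, ENNReal.toReal_ofReal (norm_nonneg _)] using h3
  have hT2i : ∀ᶠ j in atTop, Integrable (T2 j) (volume.restrict O) := by
    have h1 : ∀ᶠ j in atTop, E j < ⊤ := hElim.eventually_lt_const ENNReal.zero_lt_top
    filter_upwards [h1] with j hj
    exact ⟨hT2m j, (hT2E j).trans_lt hj⟩
  -- T1
  have hT1i : ∀ j, Integrable (T1 j) (volume.restrict O) := by
    intro j
    refine Integrable.mono hint ?_ ?_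
    · exact (((hcC j).continuous.aestronglyMeasurable).mul hint.aestronglyMeasurable)
    · refine Eventually.of_forall fun z => ?_
      simp only [hT1, norm_mul, Complex.norm_real, Real.norm_eq_abs, abs_of_nonneg (hc01 j z).1]
      exact mul_le_of_le_one_left (by positivity) (hc01 j z).2
  have hT1lim : Tendsto (fun j => ∫ z in O, T1 j z) atTop
      (𝓝 (∫ z in O, b z * dzb G z (F z))) := by
    refine tendsto_integral_of_dominated_convergence (fun z => ‖b z * dzb G z (F z)‖)
      (fun j => (hT1i j).aestronglyMeasurable) hint.norm (fun j => ?_) ?_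
    · refine Eventually.of_forall fun z => ?_
      simp only [hT1, norm_mul, Complex.norm_real, Real.norm_eq_abs, abs_of_nonneg (hc01 j z).1]
      exact mul_le_of_le_one_left (by positivity) (hc01 j z).2
    · refine (ae_restrict_iff' hOopen.measurableSet).2 (Eventually.of_forall fun z hz => ?_)
      by_cases hzc : z ∈ closure {w | w ∈ O ∧ G w ≠ 0}
      · have hzK := hGK z hz hzc
        have h1 := hc1 z ⟨hzK, (hOD hz).2⟩
        have h2 : Tendsto (fun j => ((c j z : ℝ) : ℂ)) atTop (𝓝 1) := by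
          have := (Complex.continuous_ofReal.tendsto 1).comp h1
          simpa [Function.comp_def] using this
        simpa [hT1] using h2.mul_const (b z * dzb G z (F z))
      · have h0 : G =ᶠ[𝓝 z] fun _ => (0:ℂ) := by
          have h1 : ∀ᶠ w in 𝓝 z, w ∉ {w | w ∈ O ∧ G w ≠ 0} := by
            rw [mem_closure_iff_frequently, not_frequently] at hzc
            exact hzc
          filter_upwards [h1, hOopen.mem_nhds hz] with w hw hwO
          by_contra hne
          exact hw ⟨hwO, hne⟩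
        have h2 : dzb G z (F z) = 0 := by
          rw [dzb_of_eventuallyEq h0]
          simp [dzb]
        simp [hT1, h2]
  -- conclusion
  have hsum : ∀ᶠ j in atTop, (∫ z in O, T1 j z) + ∫ z in O, T2 j z = 0 := by
    filter_upwards [hT2i] with j hj
    rw [← integral_add (hT1i j) hj, ← hzero j]
    exact setIntegral_congr_fun hOopen.measurableSet (fun z hz => (hsplit j z hz).symm)
  have hl := hT1lim.add hT2lim
  rw [add_zero] at hl
  exact (tendsto_nhds_unique (hl.congr' hsum) tendsto_const_nhds)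

end Pool.Agent.H90.VG
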