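import Mathlib
import Pool.Agent.H95.VG.Targets4
import Pool.Agent.H95.VG.Targets2
import Pool.Agent.H90.VG.SFO

/-!
# VG module HIN: holomorphic maps have mild singularities
-/

open MeasureTheory Set Filter Topology Function
open scoped ENNReal NNReal ContDiff ComplexConjugate

namespace Pool.Agent.H90.VG

open Pool.Agent.H95.VG

theorem continuous_nsq {n : ℕ} : Continuous (nsq (n := n)) := by
  unfold nsq
  fun_prop

theorem isOpen_Dp {n : ℕ} : IsOpen (Dp n) :=
  (isOpen_lt continuous_const continuous_nsq).inter (isOpen_lt continuous_nsq continuous_const)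

/-- continuity of the sum of minors -/
theorem Dm_cont (h0 : T_SMO) {n : ℕ} {O : Set (V n)} {Y : V n → V n} (hO : IsOpen O)
    (hY : DifferentiableOn ℂ Y O) : ContinuousOn (Dm Y) O := by
  unfold Dm
  refine continuousOn_finsetSum _ fun Φ _ => ?_
  have hm := mix_diff hY Φ
  have hd := (h0 n (V n) O (mix Φ Y) hO hm).2.2
  have hj : ContinuousOn (fun z => jac (mix Φ Y) z) O := by
    refine continuousOn_pi.2 fun i => continuousOn_pi.2 fun j => ?_
    exact (continuous_apply i).comp_continuousOn (hd (ek j)).continuousOn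
  have hdet : Continuous (fun M : Matrix (Fin n) (Fin n) ℂ => M.det) :=
    continuous_id.matrix_det
  exact (hdet.comp_continuousOn hj).norm.pow 2

theorem hin (h0 : T_SMO) (h1 : T_LGI) : T_HIN := by
  intro n X _ _ _ ι _ A f hn hf hhol
  have hU : ∀ a, IsOpen {z | z ∈ Dp n ∧ f z ∈ (A.φ a).source} := fun a =>
    hf.isOpen_inter_preimage isOpen_Dp (A.φ a).open_source
  have hcpt : ∀ K ⊆ Dp n, IsCompact K → ∀ a, IsCompact (K ∩ Cb A f a 2) := by
    intro K hKD hK a
    have hsub : Metric.closedBall (0 : V n) 2 ⊆ (A.φ a).target :=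
      (Metric.closedBall_subset_closedBall (by norm_num)).trans (A.ball a)
    have hQ : IsCompact ((A.φ a).symm '' Metric.closedBall (0 : V n) 2) :=
      (isCompact_closedBall _ _).image_of_continuousOn ((A.φ a).continuousOn_symm.mono hsub)
    have e : K ∩ Cb A f a 2 = K ∩ f ⁻¹' ((A.φ a).symm '' Metric.closedBall (0 : V n) 2) := by
      ext z
      constructor
      · rintro ⟨hz, h1, h2⟩
        exact ⟨hz, A.φ a (f z), h2, (A.φ a).left_inv h1⟩
      · rintro ⟨hz, y, hy, hyz⟩
        refine ⟨hz, ?_, ?_⟩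
        · rw [← hyz]; exact (A.φ a).map_target (hsub hy)
        · rw [← hyz, (A.φ a).right_inv (hsub hy)]; exact hy
    rw [e]
    have hc := (hf.mono hKD).preimage_isClosed_of_isClosed hK.isClosed hQ.isClosed
    exact hK.of_isClosed_subset hc inter_subset_left
  have hbd : ∀ K ⊆ Dp n, IsCompact K → ∀ a, ∃ C : ℝ, 0 ≤ C ∧
      ∀ z ∈ K ∩ Cb A f a 2, Dm (FF A f a) z ≤ C := by
    intro K hKD hK a
    have hc : ContinuousOn (Dm (FF A f a)) (K ∩ Cb A f a 2) :=
      (Dm_cont h0 (hU a) (hhol a)).mono fun z hz => ⟨hKD hz.1, hz.2.1⟩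
    obtain ⟨C, hC⟩ := (hcpt K hKD hK a).exists_bound_of_continuousOn hc
    exact ⟨max C 0, le_max_right _ _, fun z hz => (le_abs_self _).trans
      ((hC z hz).trans (le_max_left _ _))⟩
  refine ⟨hn, ?_, ?_, ?_, ?_, ?_, ?_, ?_, ?_⟩
  · rw [sdiff_empty]; exact isOpen_Dp
  · simp
  · rw [sdiff_empty]; exact hf
  · intro a
    simpa using hhol a
  · -- s1
    intro K hKD hK a
    rw [sdiff_empty]
    obtain ⟨C, hC0, hC⟩ := hbd K hKD hK a
    calc ∫⁻ z in K ∩ Cb A f a 2, ENNReal.ofReal (Dm (FF A f a) z)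
        ≤ ∫⁻ z in K ∩ Cb A f a 2, ENNReal.ofReal C :=
          setLIntegral_mono' (hcpt K hKD hK a).measurableSet
            fun z hz => ENNReal.ofReal_le_ofReal (hC z hz)
      _ = ENNReal.ofReal C * volume (K ∩ Cb A f a 2) := setLIntegral_const _ _
      _ < ⊤ := ENNReal.mul_lt_top ENNReal.ofReal_lt_top (hcpt K hKD hK a).measure_lt_top
  · -- s2
    intro K hKD hK
    refine ⟨fun _ _ => 1, fun _ => contDiff_const, fun _ _ => ⟨zero_le_one, le_rfl⟩, ?_, ?_, ?_⟩
    · rintro j z ⟨_, hz⟩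
      exact absurd hz (notMem_empty z)
    · intro z _
      exact tendsto_const_nhds
    · intro a Φ k
      have : ∀ z v : V n, ge (fun _ : V n => (1 : ℝ)) z v = 0 := by
        intro z v
        simp [ge, dr]
      simp [this]
  · -- s3
    intro h η _ hη K hKD hK
    have hc := hη.cont
    rw [sdiff_empty] at hc
    obtain ⟨C, hC⟩ := hK.exists_bound_of_continuousOn (hc.mono hKD)
    exact ⟨C, fun z hz => hC z hz.1⟩
  · -- s4
    intro K hKD hK
    choose C hC0 hC using hbd K hKD hK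
    obtain ⟨C1, hC1⟩ := h1 n (by omega)
    refine ⟨(∑ a, C a) * C1, fun d P δ hd hP hN hδ hδ1 a => ?_⟩
    rw [sdiff_empty]
    have hC1' := (hC1 d P δ hd hP hN hδ hδ1).1
    have hle : C a ≤ ∑ a, C a := Finset.single_le_sum (fun b _ => hC0 b) (Finset.mem_univ a)
    have hs0 : 0 ≤ ∑ a, C a := (hC0 a).trans hle
    calc ∫⁻ z in K ∩ Cb A f a 2, ENNReal.ofReal (|lgd P δ z| * Dm (FF A f a) z)
        ≤ ∫⁻ z in K ∩ Cb A f a 2, ENNReal.ofReal (∑ a, C a) * ENNReal.ofReal |lgd P δ z| := by
          refine setLIntegral_mono' (hcpt K hKD hK a).measurableSet fun z hz => ?_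
          rw [← ENNReal.ofReal_mul hs0]
          refine ENNReal.ofReal_le_ofReal ?_
          rw [mul_comm]
          exact mul_le_mul_of_nonneg_right ((hC a z hz).trans hle) (abs_nonneg _)
      _ = ENNReal.ofReal (∑ a, C a) * ∫⁻ z in K ∩ Cb A f a 2, ENNReal.ofReal |lgd P δ z| :=
          lintegral_const_mul' _ _ ENNReal.ofReal_ne_top
      _ ≤ ENNReal.ofReal (∑ a, C a) * ENNReal.ofReal (C1 * d) := by
          refine mul_le_mul_right ?_ _
          refine le_trans (lintegral_mono_set ?_) hC1'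
          intro z hz
          exact (hKD hz.1).2.le
      _ = ENNReal.ofReal ((∑ a, C a) * C1 * d) := by
          rw [← ENNReal.ofReal_mul hs0, mul_assoc]

end Pool.Agent.H90.VG
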