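import Mathlib
import Pool.Agent.H95.VG.Targets1

/-!
# VG module PWB: pointwise bounds of the operators
-/

open MeasureTheory Set Filter Topology Function
open scoped ENNReal NNReal ContDiff ComplexConjugate

namespace Pool.Agent.H90.VG

open Pool.Agent.H95.VG

theorem norm_I_smul {n : ℕ} (v : V n) : ‖Complex.I • v‖ = ‖v‖ := by
  rw [norm_smul]; simp

theorem dr_bound {n : ℕ} (g : V n → ℝ) (z v : V n) : ‖dr g z v‖ ≤ ‖fderiv ℝ g z‖ * ‖v‖ := by
  unfold dr
  have h1 : ‖((fderiv ℝ g z v : ℝ) : ℂ)‖ ≤ ‖fderiv ℝ g z‖ * ‖v‖ := by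
    rw [Complex.norm_real]; exact (fderiv ℝ g z).le_opNorm v
  have h2 : ‖((fderiv ℝ g z (Complex.I • v) : ℝ) : ℂ)‖ ≤ ‖fderiv ℝ g z‖ * ‖v‖ := by
    rw [Complex.norm_real, ← norm_I_smul v]; exact (fderiv ℝ g z).le_opNorm _
  rw [norm_div]
  have h3 : ‖(2 : ℂ)‖ = 2 := by simp
  rw [h3, div_le_iff₀ (by norm_num)]
  refine (norm_sub_le _ _).trans ?_
  rw [norm_mul, Complex.norm_I, one_mul]
  linarith

theorem lev_bound {n : ℕ} (g : V n → ℝ) (z v : V n) (hg : ContDiffAt ℝ 2 g z) :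
    |lev g z v| ≤ ‖fderiv ℝ (fderiv ℝ g) z‖ * ‖v‖ ^ 2 := by
  have hd : DifferentiableAt ℝ (fderiv ℝ g) z :=
    (hg.fderiv_right (m := 1) (by norm_num)).differentiableAt (by norm_num)
  have h0 : ∀ u : V n, fderiv ℝ (fun x => fderiv ℝ g x u) z u
      = fderiv ℝ (fderiv ℝ g) z u u := by
    intro u
    rw [fderiv_clm_apply hd (differentiableAt_const u)]
    simp
  have h1 : ∀ u : V n, |fderiv ℝ (fderiv ℝ g) z u u| ≤ ‖fderiv ℝ (fderiv ℝ g) z‖ * ‖u‖ ^ 2 := by
    intro u
    have := (fderiv ℝ (fderiv ℝ g) z).le_opNorm₂ u u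
    rw [Real.norm_eq_abs] at this
    linarith [this, (by ring : ‖fderiv ℝ (fderiv ℝ g) z‖ * ‖u‖ * ‖u‖
      = ‖fderiv ℝ (fderiv ℝ g) z‖ * ‖u‖ ^ 2)]
  unfold lev
  rw [h0, h0, smul_eq_mul, abs_mul, abs_of_pos (by norm_num : (0:ℝ) < 4⁻¹)]
  have a1 := h1 v
  have a2 := h1 (Complex.I • v)
  rw [norm_I_smul] at a2
  have a3 := abs_add_le (fderiv ℝ (fderiv ℝ g) z v v)
    (fderiv ℝ (fderiv ℝ g) z (Complex.I • v) (Complex.I • v))
  have a4 : 0 ≤ ‖fderiv ℝ (fderiv ℝ g) z‖ * ‖v‖ ^ 2 := by positivity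
  linarith

theorem pwb (h1 : T_DOM) : T_PWB := by
  intro n X _ _ ι _ A w f I hw hS φ K hφ hKD hK
  have hDo : IsOpen (Dp n) := by
    have : Continuous (nsq (n := n)) := by unfold nsq; fun_prop
    exact (isOpen_lt continuous_const this).inter (isOpen_lt this continuous_const)
  -- bounds for `φ`
  have hφc : ∀ z ∈ K, ContDiffAt ℝ 2 φ z := fun z hz => hφ.contDiffAt (hDo.mem_nhds (hKD hz))
  obtain ⟨M1, hM1⟩ : ∃ M : ℝ, ∀ z ∈ K, ‖fderiv ℝ φ z‖ ≤ M := by
    have h : ContinuousOn (fderiv ℝ φ) K := fun z hz =>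
      ((hφc z hz).fderiv_right (m := 1) (by norm_num)).continuousAt.continuousWithinAt
    exact hK.exists_bound_of_continuousOn h
  obtain ⟨M2, hM2⟩ : ∃ M : ℝ, ∀ z ∈ K, ‖fderiv ℝ (fderiv ℝ φ) z‖ ≤ M := by
    have h : ContinuousOn (fderiv ℝ (fderiv ℝ φ)) K := fun z hz =>
      (((hφc z hz).fderiv_right (m := 1) (by norm_num)).fderiv_right (m := 0)
        (by norm_num)).continuousAt.continuousWithinAt
    have hn : ContinuousOn (fun z => ‖fderiv ℝ (fderiv ℝ φ) z‖) K :=
      (continuous_norm (E := V n →L[ℝ] V n →L[ℝ] ℝ)).comp_continuousOn h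
    obtain ⟨C, hC⟩ := hK.exists_bound_of_continuousOn hn
    exact ⟨C, fun z hz => (le_abs_self _).trans (hC z hz)⟩
  -- bounds for `w`
  have hwsupp : ∀ a, ∀ y, y ∉ Metric.closedBall (0 : V n) (3 / 2) → w a =ᶠ[𝓝 y] fun _ => 0 := by
    intro a y hy
    have : (Metric.closedBall (0 : V n) (3 / 2))ᶜ ∈ 𝓝 y :=
      Metric.isClosed_closedBall.isOpen_compl.mem_nhds hy
    filter_upwards [this] with x hx
    by_contra hne
    exact hx (hw.supp a x hne)
  have hwc : ∀ a, HasCompactSupport (w a) := fun a =>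
    HasCompactSupport.of_support_subset_isCompact (isCompact_closedBall (0 : V n) (3 / 2))
      (fun y hy => hw.supp a y hy)
  have hB0 : ∀ a, ∃ B : ℝ, ∀ y, ‖w a y‖ ≤ B := fun a =>
    (hw.smooth a).continuous.bounded_above_of_compact_support (hwc a)
  have hB1 : ∀ a, ∃ B : ℝ, ∀ y, ‖fderiv ℝ (w a) y‖ ≤ B := fun a =>
    ((hw.smooth a).continuous_fderiv (by simp)).bounded_above_of_compact_support
      ((hwc a).fderiv (𝕜 := ℝ))
  choose B0 hB0 using hB0
  choose B1 hB1 using hB1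
  have hB00 : ∀ a, 0 ≤ B0 a := fun a => (norm_nonneg _).trans (hB0 a 0)
  have hB10 : ∀ a, 0 ≤ B1 a := fun a => (norm_nonneg _).trans (hB1 a 0)
  set M2' := max M2 0
  set M1' := max M1 0
  have hM2' : ∀ z ∈ K, ‖fderiv ℝ (fderiv ℝ φ) z‖ ≤ M2' := fun z hz =>
    (hM2 z hz).trans (le_max_left _ _)
  have hM1' : ∀ z ∈ K, ‖fderiv ℝ φ z‖ ≤ M1' := fun z hz => (hM1 z hz).trans (le_max_left _ _)
  have hM20 : 0 ≤ M2' := le_max_right _ _
  have hM10 : 0 ≤ M1' := le_max_right _ _
  -- differentiability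
  have hUo : ∀ a, IsOpen {z | z ∈ Dp n \ I ∧ f z ∈ (A.φ a).source} := fun a =>
    hS.cont.isOpen_inter_preimage hS.opn (A.φ a).open_source
  have hdom : ∀ a, ∀ z ∈ Dp n \ I, f z ∈ (A.φ a).source →
      0 ≤ Dm (FF A f a) z ∧ ‖(jac (FF A f a) z).det‖ ^ 2 ≤ Dm (FF A f a) z ∧
      ∀ k, ‖cf (FF A f a) k z‖ ^ 2 ≤ Dm (FF A f a) z := by
    intro a z hz hfz
    have hd : DifferentiableAt ℂ (FF A f a) z :=
      (hS.hol a).differentiableAt ((hUo a).mem_nhds ⟨hz, hfz⟩)
    obtain ⟨g1, g2, -, -, g5, -⟩ := h1 n (FF A f a) z hd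
    refine ⟨by linarith, g2, fun k => ?_⟩
    have h : ‖cf (FF A f a) k z‖ ≤ Real.sqrt (Dm (FF A f a) z) := by
      rw [pi_norm_le_iff_of_nonneg (Real.sqrt_nonneg _)]
      intro i
      exact Real.le_sqrt_of_sq_le (g5 k i)
    calc ‖cf (FF A f a) k z‖ ^ 2 ≤ Real.sqrt (Dm (FF A f a) z) ^ 2 := by gcongr
      _ = Dm (FF A f a) z := Real.sq_sqrt (by linarith)
  have hind0 : ∀ a, ∀ z ∈ Dp n \ I, 0 ≤ (Cb A f a (3 / 2)).indicator (Dm (FF A f a)) z := by
    intro a z hz
    by_cases h : z ∈ Cb A f a (3 / 2)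
    · rw [indicator_of_mem h]; exact (hdom a z hz h.1).1
    · rw [indicator_of_notMem h]
  -- the two bounds
  have hLL : ∀ z ∈ K \ I, |LL A w f φ z| ≤
      ((∑ a, B0 a) * (n * M2')) * ∑ a, (Cb A f a (3 / 2)).indicator (Dm (FF A f a)) z := by
    intro z hz
    have hzD : z ∈ Dp n \ I := ⟨hKD hz.1, hz.2⟩
    unfold LL
    refine (Finset.abs_sum_le_sum_abs _ _).trans ?_
    rw [Finset.mul_sum]
    refine Finset.sum_le_sum fun a _ => ?_
    by_cases h : z ∈ Cb A f a (3 / 2)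
    · rw [indicator_of_mem h]
      obtain ⟨d0, -, d2⟩ := hdom a z hzD h.1
      have e1 : |∑ k, lev φ z (cf (FF A f a) k z)| ≤ n * M2' * Dm (FF A f a) z := by
        refine (Finset.abs_sum_le_sum_abs _ _).trans ?_
        calc ∑ k, |lev φ z (cf (FF A f a) k z)| ≤ ∑ _k : Fin n, M2' * Dm (FF A f a) z := by
              refine Finset.sum_le_sum fun k _ => ?_
              refine (lev_bound φ z _ (hφc z hz.1)).trans ?_
              exact mul_le_mul (hM2' z hz.1) (d2 k) (by positivity) hM20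
          _ = n * M2' * Dm (FF A f a) z := by simp [mul_assoc]
      have e2 : |Wt A w a (f z)| ≤ ∑ a, B0 a := by
        have : |Wt A w a (f z)| ≤ B0 a := by
          unfold Wt
          rw [indicator_of_mem h.1]
          exact hB0 a _
        exact this.trans (Finset.single_le_sum (fun b _ => hB00 b) (Finset.mem_univ a))
      rw [abs_mul]
      calc |Wt A w a (f z)| * |∑ k, lev φ z (cf (FF A f a) k z)|
          ≤ (∑ a, B0 a) * (n * M2' * Dm (FF A f a) z) :=
            mul_le_mul e2 e1 (abs_nonneg _) (Finset.sum_nonneg fun b _ => hB00 b)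
        _ = _ := by ring
    · have h0 : Wt A w a (f z) = 0 := by
        unfold Wt
        by_cases hs : f z ∈ (A.φ a).source
        · rw [indicator_of_mem hs]
          by_contra hne
          exact h ⟨hs, hw.supp a _ hne⟩
        · rw [indicator_of_notMem hs]
      rw [h0, indicator_of_notMem h]
      simp
  have hsec : ∀ z ∈ K \ I, |2 * ∑ a, ((A.φ a).source).indicator (fun _ => ∑ k,
      (dr φ z (cf (FF A f a) k z) *
        conj ((jac (FF A f a) z).det * dr (w a) (FF A f a z) (ek k))).re) (f z)| ≤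
      ((∑ a, B1 a) * (2 * n * M1')) * ∑ a, (Cb A f a (3 / 2)).indicator (Dm (FF A f a)) z := by
    intro z hz
    have hzD : z ∈ Dp n \ I := ⟨hKD hz.1, hz.2⟩
    rw [abs_mul, abs_of_pos (by norm_num : (0:ℝ) < 2)]
    have : |∑ a, ((A.φ a).source).indicator (fun _ => ∑ k,
      (dr φ z (cf (FF A f a) k z) *
        conj ((jac (FF A f a) z).det * dr (w a) (FF A f a z) (ek k))).re) (f z)| ≤
        ((∑ a, B1 a) * (n * M1')) * ∑ a, (Cb A f a (3 / 2)).indicator (Dm (FF A f a)) z := by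
      refine (Finset.abs_sum_le_sum_abs _ _).trans ?_
      rw [Finset.mul_sum]
      refine Finset.sum_le_sum fun a _ => ?_
      by_cases h : z ∈ Cb A f a (3 / 2)
      · rw [indicator_of_mem h, indicator_of_mem h.1]
        obtain ⟨d0, d1, d2⟩ := hdom a z hzD h.1
        refine (Finset.abs_sum_le_sum_abs _ _).trans ?_
        calc ∑ k, |(dr φ z (cf (FF A f a) k z) *
              conj ((jac (FF A f a) z).det * dr (w a) (FF A f a z) (ek k))).re|
            ≤ ∑ _k : Fin n, (∑ a, B1 a) * M1' * Dm (FF A f a) z := by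
              refine Finset.sum_le_sum fun k _ => ?_
              refine (Complex.abs_re_le_norm _).trans ?_
              rw [norm_mul, RCLike.norm_conj, norm_mul]
              have b1 : ‖dr φ z (cf (FF A f a) k z)‖ ≤ M1' * ‖cf (FF A f a) k z‖ :=
                (dr_bound φ z _).trans (mul_le_mul_of_nonneg_right (hM1' z hz.1) (norm_nonneg _))
              have b2 : ‖dr (w a) (FF A f a z) (ek k)‖ ≤ ∑ a, B1 a := by
                refine (dr_bound _ _ _).trans ?_
                have hek : ‖(ek k : V n)‖ = 1 := by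
                  unfold ek
                  rw [Pi.norm_single]; simp
                rw [hek, mul_one]
                exact (hB1 a _).trans
                  (Finset.single_le_sum (fun b _ => hB10 b) (Finset.mem_univ a))
              have b3 : ‖cf (FF A f a) k z‖ * ‖(jac (FF A f a) z).det‖ ≤ Dm (FF A f a) z := by
                have := d2 k
                nlinarith [sq_nonneg (‖cf (FF A f a) k z‖ - ‖(jac (FF A f a) z).det‖)]
              have hs1 : 0 ≤ ∑ a, B1 a := Finset.sum_nonneg fun b _ => hB10 b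
              calc ‖dr φ z (cf (FF A f a) k z)‖ *
                    (‖(jac (FF A f a) z).det‖ * ‖dr (w a) (FF A f a z) (ek k)‖)
                  ≤ (M1' * ‖cf (FF A f a) k z‖) * (‖(jac (FF A f a) z).det‖ * ∑ a, B1 a) := by
                    gcongr
                _ = (∑ a, B1 a) * M1' *
                    (‖cf (FF A f a) k z‖ * ‖(jac (FF A f a) z).det‖) := by ring
                _ ≤ (∑ a, B1 a) * M1' * Dm (FF A f a) z := by gcongr
          _ = (∑ a, B1 a) * (n * M1') * Dm (FF A f a) z := by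
              simp; ring
      · rw [indicator_of_notMem h, mul_zero]
        by_cases hs : f z ∈ (A.φ a).source
        · rw [indicator_of_mem hs]
          have hy : FF A f a z ∉ Metric.closedBall (0 : V n) (3 / 2) := fun hy => h ⟨hs, hy⟩
          have h0 : fderiv ℝ (w a) (FF A f a z) = 0 := by
            rw [(hwsupp a _ hy).fderiv_eq]; simp
          simp [dr, h0]
        · rw [indicator_of_notMem hs]; simp
    calc 2 * _ ≤ 2 * (((∑ a, B1 a) * (n * M1')) *
          ∑ a, (Cb A f a (3 / 2)).indicator (Dm (FF A f a)) z) := by gcongr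
      _ = _ := by ring
  have hs0 : 0 ≤ ∑ a, B0 a := Finset.sum_nonneg fun b _ => hB00 b
  have hs1 : 0 ≤ ∑ a, B1 a := Finset.sum_nonneg fun b _ => hB10 b
  refine ⟨(∑ a, B0 a) * (n * M2') + (∑ a, B1 a) * (2 * n * M1'), fun z hz => ?_⟩
  have hzD : z ∈ Dp n \ I := ⟨hKD hz.1, hz.2⟩
  have hsum0 : 0 ≤ ∑ a, (Cb A f a (3 / 2)).indicator (Dm (FF A f a)) z :=
    Finset.sum_nonneg fun a _ => hind0 a z hzD
  have b1 := hLL z hz
  have b2 := hsec z hz
  have p1 : 0 ≤ ((∑ a, B1 a) * (2 * n * M1')) *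
    ∑ a, (Cb A f a (3 / 2)).indicator (Dm (FF A f a)) z := by positivity
  constructor
  · rw [add_mul]; linarith
  · unfold LLs
    refine (abs_add_le _ _).trans ?_
    rw [add_mul]; linarith

end Pool.Agent.H90.VG
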